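import Pool.Agent.P.MP_9ca318_co.Defs

set_option autoImplicit false

namespace Pool.Agent.P.MP_9ca318_co

open Finset

section Ind
variable {ι : Type} [Fintype ι] [DecidableEq ι]

lemma ind_perm (w : ι → ℝ) (u : ι → ι → ℝ) (s : Equiv.Perm ι) :
    ind w (u ∘ s) = ((Equiv.Perm.sign s : ℤˣ) : ℤ) * ind w u := by
  classical
  have hc : (∃ l : ι → ℝ, (∀ i, 0 < l i) ∧ ∑ i, l i • (u ∘ s) i = w) ↔
      (∃ l : ι → ℝ, (∀ i, 0 < l i) ∧ ∑ i, l i • u i = w) := by
    constructor
    · rintro ⟨l, hl, h⟩
      refine ⟨l ∘ s.symm, fun i => hl _, ?_⟩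
      rw [← h, ← Equiv.sum_comp s]
      simp
    · rintro ⟨l, hl, h⟩
      refine ⟨l ∘ s, fun i => hl _, ?_⟩
      rw [← h, ← Equiv.sum_comp s (fun i => l i • u i)]
      simp
  have hd : Matrix.det (Matrix.of (u ∘ s)) =
      ((Equiv.Perm.sign s : ℤˣ) : ℤ) * Matrix.det (Matrix.of u) := by
    have : Matrix.of (u ∘ s) = (Matrix.of u).submatrix s id := rfl
    rw [this, Matrix.det_permute]
  unfold ind
  rw [hd]
  by_cases h : ∃ l : ι → ℝ, (∀ i, 0 < l i) ∧ ∑ i, l i • u i = w
  · rw [if_pos (hc.2 h), if_pos h]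
    rcases Int.units_eq_one_or (Equiv.Perm.sign s) with h1 | h1 <;> simp [h1, Left.sign_neg]
  · rw [if_neg (fun h' => h (hc.1 h')), if_neg h, mul_zero]

lemma ind_swap (w : ι → ℝ) (u : ι → ι → ℝ) {i j : ι} (hij : i ≠ j) :
    ind w (u ∘ Equiv.swap i j) = -ind w u := by
  rw [ind_perm, Equiv.Perm.sign_swap hij]
  simp

lemma ind_map (G : (ι → ℝ) →ₗ[ℝ] (ι → ℝ)) (hG : Function.Injective G) (w : ι → ℝ)
    (u : ι → ι → ℝ) :
    ind (G w) (fun i => G (u i)) =
      ((SignType.sign (LinearMap.det G) : SignType) : ℤ) * ind w u := by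
  classical
  have hc : (∃ l : ι → ℝ, (∀ i, 0 < l i) ∧ ∑ i, l i • G (u i) = G w) ↔
      (∃ l : ι → ℝ, (∀ i, 0 < l i) ∧ ∑ i, l i • u i = w) := by
    refine exists_congr fun l => and_congr_right fun _ => ?_
    have : ∑ i, l i • G (u i) = G (∑ i, l i • u i) := by simp [map_sum]
    rw [this]
    exact hG.eq_iff
  have hd : Matrix.det (Matrix.of (fun i => G (u i))) =
      LinearMap.det G * Matrix.det (Matrix.of u) := by
    have : Matrix.of (fun i => G (u i)) = Matrix.of u * (LinearMap.toMatrix' G).transpose := by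
      ext i j
      simp only [Matrix.of_apply, Matrix.mul_apply, Matrix.transpose_apply,
        LinearMap.toMatrix'_apply]
      have h1 : u i = ∑ k, u i k • (Pi.single k 1 : ι → ℝ) := by
        ext k
        simp [Finset.sum_apply, Pi.single_apply]
      conv_lhs => rw [h1]
      simp only [map_sum, map_smul, Finset.sum_apply, Pi.smul_apply, smul_eq_mul]
    rw [this, Matrix.det_mul, Matrix.det_transpose, LinearMap.det_toMatrix', mul_comm]
  unfold ind
  rw [hd]
  by_cases h : ∃ l : ι → ℝ, (∀ i, 0 < l i) ∧ ∑ i, l i • u i = w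
  · rw [if_pos (hc.2 h), if_pos h, sign_mul]
    simp
  · rw [if_neg (fun h' => h (hc.1 h')), if_neg h, mul_zero]

lemma ind_eq_zero {w : ι → ℝ} {u : ι → ι → ℝ}
    (h : ∀ l : ι → ℝ, (∀ i, 0 ≤ l i) → ∑ i, l i • u i ≠ w) : ind w u = 0 := by
  classical
  unfold ind
  rw [if_neg]
  rintro ⟨l, hl, h'⟩
  exact h l (fun i => (hl i).le) h'

omit [DecidableEq ι] in
lemma mem_span_of_zero {u : ι → ι → ℝ} {l : ι → ℝ} {i : ι} (hi : l i = 0) :
    ∑ j, l j • u j ∈ Submodule.span ℝ (u '' {j | j ≠ i}) := by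
  refine Submodule.sum_mem _ fun j _ => ?_
  by_cases hj : j = i
  · subst hj
    simp [hi]
  · exact Submodule.smul_mem _ _ (Submodule.subset_span ⟨j, hj, rfl⟩)

omit [DecidableEq ι] in
lemma Gen.wg {X : Set (ι → ℝ)} {w : ι → ℝ} (h : Gen X w) {u : ι → ι → ℝ} (hu : ∀ j, u j ∈ X) :
    WG w u := by
  intro l hl hw i
  rcases (hl i).lt_or_eq with h1 | h1
  · exact h1
  · exact absurd (hw ▸ mem_span_of_zero h1.symm) (h u i hu)

omit [Fintype ι] [DecidableEq ι] in
lemma Gen.mono {X Y : Set (ι → ℝ)} {w : ι → ℝ} (h : Gen X w) (hY : Y ⊆ X) : Gen Y w :=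
  fun u i hu => h u i fun j => hY (hu j)

lemma sum_update_smul (u : ι → ι → ℝ) (l : ι → ℝ) (i : ι) (z : ι → ℝ) :
    ∑ j, l j • Function.update u i z j = l i • z + ∑ j, Function.update l i 0 j • u j := by
  rw [← Finset.add_sum_erase _ _ (Finset.mem_univ i), ← Finset.add_sum_erase _ _ (Finset.mem_univ i)]
  simp only [Function.update_self, zero_smul, zero_add]
  congr 1
  refine Finset.sum_congr rfl fun j hj => ?_
  rw [Function.update_of_ne (Finset.ne_of_mem_erase hj),
    Function.update_of_ne (Finset.ne_of_mem_erase hj)]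

lemma Gen.zf_update {X : Set (ι → ℝ)} {z : ι → ℝ} (h : Gen X z) {u : ι → ι → ℝ}
    (hu : ∀ j, u j ∈ X) (hz : ZF u) (i : ι) : ZF (Function.update u i z) := by
  intro l hl h0
  rw [sum_update_smul] at h0
  have hi : l i = 0 := by
    by_contra hi
    apply h u i hu
    have hm : ∑ j, Function.update l i 0 j • u j ∈ Submodule.span ℝ (u '' {j | j ≠ i}) :=
      mem_span_of_zero (by simp)
    have : z = (-(l i)⁻¹) • ∑ j, Function.update l i 0 j • u j := by
      have h1 : ∑ j, Function.update l i 0 j • u j = -(l i • z) := by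
        rw [eq_neg_iff_add_eq_zero, add_comm]; exact h0
      rw [h1, smul_neg, neg_smul, neg_neg, smul_smul, inv_mul_cancel₀ hi, one_smul]
    rw [this]
    exact Submodule.smul_mem _ _ hm
  rw [hi, zero_smul, zero_add] at h0
  have h2 : Function.update l i 0 = l := by
    rw [← hi]; exact Function.update_eq_self i l
  rw [h2] at h0
  exact hz l hl h0

/-- If `w'` has only strictly positive representations then replacing a vector by `-w'` keeps the
family zero free. -/
lemma zf_update_neg {w' : ι → ℝ} {u : ι → ι → ℝ} (hz : ZF u) (hw : WG w' u) (i : ι) :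
    ZF (Function.update u i (-w')) := by
  intro l hl h0
  rw [sum_update_smul] at h0
  have hi : l i = 0 := by
    by_contra hi
    have hpos : 0 < l i := lt_of_le_of_ne (hl i) (Ne.symm hi)
    have h1 : ∑ j, ((l i)⁻¹ * Function.update l i 0 j) • u j = w' := by
      have h2 : ∑ j, Function.update l i 0 j • u j = l i • w' := by
        rw [smul_neg, neg_add_eq_zero] at h0
        exact h0.symm
      simp only [mul_smul]
      rw [← Finset.smul_sum, h2, smul_smul, inv_mul_cancel₀ hi, one_smul]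
    have := hw _ (fun j => mul_nonneg (inv_nonneg.2 hpos.le) (by
      by_cases hj : j = i
      · subst hj; simp
      · rw [Function.update_of_ne hj]; exact hl j)) h1 i
    simp at this
  rw [hi, zero_smul, zero_add] at h0
  have h2 : Function.update l i 0 = l := by
    rw [← hi]; exact Function.update_eq_self i l
  rw [h2] at h0
  exact hz l hl h0

end Ind

lemma ZF.comp {ι κ κ' : Type} [Fintype κ] [Fintype κ'] {y : κ → ι → ℝ} (h : ZF y) {e : κ' → κ}
    (he : Function.Injective e) : ZF (y ∘ e) := by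
  classical
  intro l hl h0
  let L : κ → ℝ := fun k => ∑ i, if e i = k then l i else 0
  have hL : ∀ i, L (e i) = l i := by
    intro i
    simp only [L, he.eq_iff]
    simp
  have h1 : ∑ k, L k • y k = 0 := by
    rw [← h0]
    simp only [L, Finset.sum_smul, ite_smul, zero_smul]
    rw [Finset.sum_comm]
    simp
  have h2 := h L (fun k => Finset.sum_nonneg fun i _ => by split_ifs; exacts [hl i, le_rfl]) h1
  funext i
  rw [← hL i, h2]
  rfl

section Fub
variable {n : ℕ} {T : Type}

lemma sum_sum_update [Fintype T] (f : (Fin n → T) → ℤ) (j : Fin n) :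
    ∑ s : Fin n → T, ∑ x : T, f (Function.update s j x) =
      (Fintype.card T : ℤ) * ∑ s : Fin n → T, f s := by
  let e : (Fin n → T) × T ≃ (Fin n → T) × T :=
    { toFun := fun p => (Function.update p.1 j p.2, p.1 j)
      invFun := fun p => (Function.update p.1 j p.2, p.1 j)
      left_inv := fun p => by simp
      right_inv := fun p => by simp }
  have h1 : ∑ p : (Fin n → T) × T, f (e p).1 = ∑ p : (Fin n → T) × T, f p.1 :=
    Equiv.sum_comp e (fun p => f p.1)
  rw [Fintype.sum_prod_type, Fintype.sum_prod_type] at h1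
  simp only [e, Equiv.coe_fn_mk] at h1
  rw [h1]
  simp [Finset.mul_sum]

lemma prod_update_left (ε : Fin n → T → ℤ) (s : Fin n → T) (j : Fin n) (x : T) :
    ∏ i, ε i (Function.update s j x i) = (∏ i ∈ univ.erase j, ε i (s i)) * ε j x := by
  rw [← Finset.prod_erase_mul _ _ (Finset.mem_univ j)]
  simp only [Function.update_self]
  congr 1
  refine Finset.prod_congr rfl fun i hi => ?_
  rw [Function.update_of_ne (Finset.ne_of_mem_erase hi)]

/-- Comparison of two product sums that differ in the factor `j`. -/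
lemma fub2 [Fintype T] [Nonempty T] (ε ε' : Fin n → T → ℤ) (H H' : (Fin n → T) → ℤ) (j : Fin n)
    (hε : ∀ i, i ≠ j → ε i = ε' i)
    (h : ∀ s : Fin n → T, (∀ i, i ≠ j → ε i (s i) ≠ 0) →
      ∑ x, ε j x * H (Function.update s j x) = ∑ x, ε' j x * H' (Function.update s j x)) :
    ∑ s : Fin n → T, (∏ i, ε i (s i)) * H s = ∑ s : Fin n → T, (∏ i, ε' i (s i)) * H' s := by
  have hc : (Fintype.card T : ℤ) ≠ 0 := by exact_mod_cast Fintype.card_ne_zero
  apply mul_left_cancel₀ hc
  rw [← sum_sum_update (fun s => (∏ i, ε i (s i)) * H s) j,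
    ← sum_sum_update (fun s => (∏ i, ε' i (s i)) * H' s) j]
  refine Finset.sum_congr rfl fun s _ => ?_
  simp only [prod_update_left, mul_assoc, ← Finset.mul_sum]
  have hp : ∏ i ∈ univ.erase j, ε' i (s i) = ∏ i ∈ univ.erase j, ε i (s i) :=
    Finset.prod_congr rfl fun i hi => by rw [hε i (Finset.ne_of_mem_erase hi)]
  rw [hp]
  by_cases h0 : ∀ i, i ≠ j → ε i (s i) ≠ 0
  · rw [h s h0]
  · push Not at h0
    obtain ⟨i, hi, h0⟩ := h0
    rw [Finset.prod_eq_zero (Finset.mem_erase.2 ⟨hi, Finset.mem_univ i⟩) h0, zero_mul, zero_mul]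

lemma fub [Fintype T] [Nonempty T] (ε : Fin n → T → ℤ) (H : (Fin n → T) → ℤ) (j : Fin n)
    (h : ∀ s : Fin n → T, ∑ x, ε j x * H (Function.update s j x) = 0) :
    ∑ s : Fin n → T, (∏ i, ε i (s i)) * H s = 0 := by
  rw [fub2 ε ε H (fun _ => 0) j (fun _ _ => rfl) (fun s _ => by simpa using h s)]
  simp

end Fub

section Faces
variable {n m : ℕ}

lemma face_mem {X : Type} (Φ : Fin n → Fin (m + 1) → Fin (m + 1) → X) (s : Fin n → S m)
    (ρ : Fin n × Fin m) : face Φ s ρ ∈ verts Φ := ⟨_, _, _, rfl⟩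

lemma verts_finite {X : Type} (Φ : Fin n → Fin (m + 1) → Fin (m + 1) → X) : (verts Φ).Finite := by
  have : verts Φ = Set.range (fun p : Fin n × Fin (m + 1) × Fin (m + 1) => Φ p.1 p.2.1 p.2.2) := by
    ext x
    constructor
    · rintro ⟨j, r, k, rfl⟩
      exact ⟨(j, r, k), rfl⟩
    · rintro ⟨p, rfl⟩
      exact ⟨_, _, _, rfl⟩
  rw [this]
  exact Set.finite_range _

/-- Replace the block of class `j` of a tuple. -/
def setc {X : Type} (u : Fin n × Fin m → X) (j : Fin n) (t : Fin m → X) : Fin n × Fin m → X :=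
  fun ρ => if ρ.1 = j then t ρ.2 else u ρ

lemma face_update {X : Type} (Φ : Fin n → Fin (m + 1) → Fin (m + 1) → X) (s : Fin n → S m)
    (j : Fin n) (x : S m) : face Φ (Function.update s j x) = setc (face Φ s) j (cf (Φ j) x) := by
  funext ρ
  unfold face setc
  by_cases h : ρ.1 = j
  · rw [if_pos h, h, Function.update_self]
  · rw [if_neg h, Function.update_of_ne h]

lemma update_setc {X : Type} (u : Fin n × Fin m → X) (j : Fin n) (t : Fin m → X) (a : Fin m)
    (z : X) : Function.update (setc u j t) (j, a) z = setc u j (Function.update t a z) := by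
  funext ρ
  obtain ⟨i, b⟩ := ρ
  by_cases h : (i, b) = (j, a)
  · rw [h, Function.update_self]
    simp [setc]
  · rw [Function.update_of_ne h]
    unfold setc
    by_cases hi : i = j
    · subst hi
      have hb : b ≠ a := fun hb => h (by rw [hb])
      simp [Function.update_of_ne hb]
    · simp [hi]

lemma alt_setc (w : Fin n × Fin m → ℝ) (u : Fin n × Fin m → (Fin n × Fin m → ℝ)) (j : Fin n) :
    Alt (fun t => ind w (setc u j t)) := by
  intro t a b hab
  have : setc u j (t ∘ Equiv.swap a b) = setc u j t ∘ Equiv.swap (j, a) (j, b) := by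
    funext ρ
    obtain ⟨i, c⟩ := ρ
    simp only [Function.comp_apply]
    by_cases hi : i = j
    · subst hi
      by_cases h1 : c = a
      · subst h1
        simp [setc]
      · by_cases h2 : c = b
        · subst h2
          simp [setc]
        · rw [Equiv.swap_apply_of_ne_of_ne (by simpa using h1) (by simpa using h2)]
          simp [setc, Equiv.swap_apply_of_ne_of_ne h1 h2]
    · rw [Equiv.swap_apply_of_ne_of_ne (by simp [hi]) (by simp [hi])]
      simp [setc, hi]
  simp only
  rw [this, ind_swap]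
  simpa using hab

/-- The cone over the boundary in class `j` vanishes when the class chain is a cycle. -/
lemma cyc_sum (w : Fin n × Fin m → ℝ)
    (Φ : Fin n → Fin (m + 1) → Fin (m + 1) → (Fin n × Fin m → ℝ)) (ε : Fin n → S m → ℤ)
    (j : Fin n) (hj : Cyc (ε j)) (z : (Fin n → S m) → (Fin n × Fin m → ℝ))
    (hz : ∀ s x, z (Function.update s j x) = z s) :
    ∑ s : Fin n → S m, (∏ i, ε i (s i)) *
      ∑ a, ind w (Function.update (face Φ s) (j, a) (z s)) = 0 := by
  refine fub ε _ j fun s => ?_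
  simp only [hz, face_update, update_setc]
  exact hj _ (Φ j) (z s) _ (alt_setc w (face Φ s) j)

end Faces

end Pool.Agent.P.MP_9ca318_co
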