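import Pool.Agent.P.MP_9ca318_co.Defs

/-! The clustered configuration. -/

namespace Pool.Agent.P.MP_9ca318_co

open Finset Equiv

namespace Clus

variable {n m : ℕ}

lemma sum_sv (μ : Fin (m + 1) → ℝ) (c : Fin m) :
    ∑ k, μ k * sv k c = μ c.castSucc - μ (Fin.last m) := by
  rw [Fin.sum_univ_castSucc]
  simp [sv, Fin.castSucc_ne_last, sub_eq_add_neg]

lemma one (τ : Perm (Fin (m + 1))) (l : Fin m → ℝ) : ∃ μ : Fin (m + 1) → ℝ,
    μ (τ (Fin.last m)) = 0 ∧ (∀ a, μ (τ a.castSucc) = l a) ∧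
      ∀ c, ∑ a, l a * sv (τ a.castSucc) c = μ c.castSucc - μ (Fin.last m) := by
  refine ⟨fun k => (Fin.snoc l 0 : Fin (m + 1) → ℝ) (τ.symm k), by simp, fun a => by simp,
    fun c => ?_⟩
  rw [← sum_sv (fun k => (Fin.snoc l 0 : Fin (m + 1) → ℝ) (τ.symm k)), ← Equiv.sum_comp τ,
    Fin.sum_univ_castSucc]
  simp

lemma one0 (τ : Perm (Fin (m + 1))) (l : Fin m → ℝ)
    (h : ∀ c, ∑ a, l a * sv (τ a.castSucc) c = 0) (a : Fin m) : l a = 0 := by
  obtain ⟨μ, h0, h1, h2⟩ := one τ l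
  have h3 : ∀ k, μ k = μ (Fin.last m) := fun k => by
    induction k using Fin.lastCases with
    | last => rfl
    | cast c => exact sub_eq_zero.1 ((h2 c).symm.trans (h c))
  rw [← h1, h3, ← h3 (τ (Fin.last m)), h0]

lemma one1 (τ : Perm (Fin (m + 1))) (l : Fin m → ℝ) (hl : ∀ a, 0 ≤ l a)
    (h : ∀ c, ∑ a, l a * sv (τ a.castSucc) c = 1) :
    τ (Fin.last m) = Fin.last m ∧ ∀ a, l a = 1 := by
  obtain ⟨μ, h0, h1, h2⟩ := one τ l
  have h3 : ∀ c : Fin m, μ c.castSucc - μ (Fin.last m) = 1 := fun c => (h2 c).symm.trans (h c)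
  have h4 : ∀ k, 0 ≤ μ (τ k) := fun k => by
    induction k using Fin.lastCases with
    | last => exact h0.ge
    | cast c => rw [h1]; exact hl c
  have h5 : 0 ≤ μ (Fin.last m) := by simpa using h4 (τ.symm (Fin.last m))
  have h6 : τ (Fin.last m) = Fin.last m := by
    by_contra h6
    obtain ⟨c, hc⟩ := Fin.exists_castSucc_eq.2 h6
    have := h3 c
    rw [hc, h0] at this
    linarith
  refine ⟨h6, fun a => ?_⟩
  have h7 : τ a.castSucc ≠ Fin.last m := fun h7 =>
    Fin.castSucc_ne_last a (τ.injective (h7.trans h6.symm))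
  obtain ⟨c, hc⟩ := Fin.exists_castSucc_eq.2 h7
  rw [h6] at h0
  rw [← h1, ← hc, ← h3 c, h0, sub_zero]

/-- The clustered vertices. -/
abbrev Ph (n m : ℕ) : Fin n → Fin (m + 1) → Fin (m + 1) → (Fin n × Fin m → ℝ) :=
  fun j _ k => tens (Pi.single j 1) k

/-- The permutation giving the columns of a class face. -/
def tau (t : S m) : Perm (Fin (m + 1)) := t.1 * swap t.2 (Fin.last m)

lemma face_apply (s : Fin n → S m) (ρ ρ' : Fin n × Fin m) :
    face (Ph n m) s ρ ρ' = if ρ'.1 = ρ.1 then sv (tau (s ρ.1) ρ.2.castSucc) ρ'.2 else 0 := by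
  simp [face, cf, tens, tau, rowOf, Pi.single_apply]

lemma coord (s : Fin n → S m) (l : Fin n × Fin m → ℝ) (j : Fin n) (c : Fin m) :
    (∑ ρ, l ρ • face (Ph n m) s ρ) (j, c) = ∑ a, l (j, a) * sv (tau (s j) a.castSucc) c := by
  rw [Finset.sum_apply, Fintype.sum_prod_type_right]
  refine Finset.sum_congr rfl fun a _ => ?_
  simp [face_apply]

lemma rep1 (s : Fin n → S m) (l : Fin n × Fin m → ℝ) (hl : ∀ ρ, 0 ≤ l ρ)
    (h : ∑ ρ, l ρ • face (Ph n m) s ρ = fun _ => (1 : ℝ)) (j : Fin n) :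
    tau (s j) (Fin.last m) = Fin.last m ∧ ∀ a, l (j, a) = 1 :=
  one1 (tau (s j)) (fun a => l (j, a)) (fun _ => hl _) fun c => by rw [← coord, h]

/-- Extension of a permutation fixing the last element. -/
def ext (ρ : Perm (Fin m)) : Perm (Fin (m + 1)) :=
  finSuccEquivLast.symm.permCongr (Equiv.optionCongr ρ)

lemma ext_last (ρ : Perm (Fin m)) : ext ρ (Fin.last m) = Fin.last m := by simp [ext]

lemma ext_cast (ρ : Perm (Fin m)) (a : Fin m) : ext ρ a.castSucc = (ρ a).castSucc := by simp [ext]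

lemma ext_sign (ρ : Perm (Fin m)) : Perm.sign (ext ρ) = Perm.sign ρ := by simp [ext]

lemma ext_inj : Function.Injective (ext (m := m)) := fun ρ ρ' h => Equiv.ext fun a =>
  Fin.castSucc_injective _ (by rw [← ext_cast, h, ext_cast])

lemma ext_surj (τ : Perm (Fin (m + 1))) (h : τ (Fin.last m) = Fin.last m) : ∃ ρ, ext ρ = τ := by
  refine ⟨Equiv.removeNone (finSuccEquivLast.permCongr τ), ?_⟩
  have h1 : finSuccEquivLast.permCongr τ none = none := by simp [h]
  rw [ext, map_equiv_removeNone, h1]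
  ext k
  simp

/-- The indicator of the contributing class faces. -/
def fi (t : S m) : ℤ := if t.2 = Fin.last m ∧ t.1 (Fin.last m) = Fin.last m then 1 else 0

lemma sum_fi : ∑ t : S m, fi t = (m.factorial : ℤ) := by
  have h1 : (univ.filter fun t : S m => t.2 = Fin.last m ∧ t.1 (Fin.last m) = Fin.last m) =
      univ.image fun ρ : Perm (Fin m) => (ext ρ, Fin.last m) := by
    ext ⟨σ, b⟩
    simp only [mem_filter, mem_univ, true_and, mem_image, Prod.mk.injEq]
    constructor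
    · rintro ⟨rfl, h⟩
      obtain ⟨ρ, hρ⟩ := ext_surj σ h
      exact ⟨ρ, hρ, rfl⟩
    · rintro ⟨ρ, rfl, rfl⟩
      exact ⟨rfl, ext_last ρ⟩
  simp only [fi]
  rw [Finset.sum_boole, h1,
    Finset.card_image_of_injective _ fun ρ ρ' h => ext_inj (congrArg Prod.fst h)]
  simp [Fintype.card_perm]

lemma face_ext (ρ : Fin n → Perm (Fin m)) :
    Matrix.of (face (Ph n m) fun j => (ext (ρ j), Fin.last m)) =
      Perm.permMatrix ℝ (Equiv.prodCongrRight ρ) := by
  ext ⟨j, a⟩ ⟨j', c⟩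
  rw [Matrix.of_apply, face_apply]
  by_cases h : j' = j
  · subst h
    simp [tau, ext_cast, sv, Fin.castSucc_ne_last, PEquiv.toMatrix_apply]
  · simp [h, Ne.symm h, PEquiv.toMatrix_apply]

lemma sign_unit (u : ℤˣ) : ((SignType.sign (((u : ℤ) : ℝ)) : SignType) : ℤ) = u := by
  rcases Int.units_eq_one_or u with rfl | rfl <;> simp

lemma ind_ext (ρ : Fin n → Perm (Fin m)) :
    ind (fun _ => (1 : ℝ)) (face (Ph n m) fun j => (ext (ρ j), Fin.last m)) =
      ((∏ j, Perm.sign (ρ j) : ℤˣ) : ℤ) := by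
  unfold ind
  rw [if_pos, face_ext, Matrix.det_permutation, Perm.sign_prodCongrRight]
  · exact sign_unit _
  · refine ⟨fun _ => 1, fun _ => one_pos, funext fun ⟨j, c⟩ => ?_⟩
    rw [coord]
    have h : ∀ a : Fin m, sv (tau (ext (ρ j), Fin.last m) a.castSucc) c =
        if ρ j a = c then 1 else 0 := fun a => by simp [tau, ext_cast, sv, Fin.castSucc_ne_last]
    simp only [h, one_mul]
    rw [Equiv.sum_comp (ρ j) fun a => if a = c then (1 : ℝ) else 0]
    simp

lemma summand (s : Fin n → S m) :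
    (∏ j, epsR (s j)) * ind (fun _ => (1 : ℝ)) (face (Ph n m) s) = ∏ j, fi (s j) := by
  by_cases h : ∀ j, (s j).2 = Fin.last m ∧ (s j).1 (Fin.last m) = Fin.last m
  · choose ρ hρ using fun j => ext_surj (s j).1 (h j).2
    obtain rfl : (fun j => (ext (ρ j), Fin.last m)) = s :=
      funext fun j => Prod.ext (hρ j) (h j).1.symm
    rw [ind_ext]
    simp only [epsR, fi, ext_last, ext_sign, and_self, if_true, Finset.prod_const_one]
    rw [← Units.coe_prod, ← Units.val_mul, Int.units_mul_self, Units.val_one]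
  · obtain ⟨j, hj⟩ := not_forall.1 h
    rw [Finset.prod_eq_zero (f := fun j => fi (s j)) (mem_univ j) (if_neg hj)]
    by_cases h2 : (s j).2 = Fin.last m
    · unfold ind
      rw [if_neg, mul_zero]
      rintro ⟨l, hl, e⟩
      refine hj ⟨h2, ?_⟩
      simpa [tau, h2] using (rep1 s l (fun ρ => (hl ρ).le) e j).1
    · rw [Finset.prod_eq_zero (f := fun j => epsR (s j)) (mem_univ j) (if_neg h2), zero_mul]

end Clus

open Clus

theorem clus : S_Clus := by
  intro n m
  refine ⟨fun s => ⟨fun l _ h => funext fun ⟨j, a⟩ => ?_, fun l hl h ⟨j, a⟩ => ?_⟩, ?_⟩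
  · exact one0 (tau (s j)) (fun a => l (j, a)) (fun c => by rw [← coord, h]; rfl) a
  · rw [(rep1 s l hl h j).2 a]
    exact one_pos
  · unfold Dg
    rw [Finset.sum_congr rfl fun s _ => summand s, ← sum_fi, ← Fintype.piFinset_univ,
      ← Finset.prod_univ_sum (fun _ => univ) fun _ t => fi t]
    simp

end Pool.Agent.P.MP_9ca318_co
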