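import Mathlib

/-!
Definitions and interface statements for the coloured Tverberg theorem with a prime number of parts.
-/

set_option autoImplicit false

namespace Pool.Agent.P.MP_9ca318_co

open Finset

/-- Signed indicator: the sign of the determinant of the family `u` when `w` is a strictly positive
combination of it, and zero otherwise. -/
noncomputable def ind {ι : Type} [Fintype ι] [DecidableEq ι] (w : ι → ℝ) (u : ι → ι → ℝ) : ℤ :=
  open Classical in
  if ∃ l : ι → ℝ, (∀ i, 0 < l i) ∧ ∑ i, l i • u i = w then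
    ((SignType.sign (Matrix.det (Matrix.of u)) : SignType) : ℤ) else 0

/-- The family has no nontrivial nonnegative vanishing combination. -/
def ZF {ι κ : Type} [Fintype κ] (y : κ → ι → ℝ) : Prop :=
  ∀ l : κ → ℝ, (∀ i, 0 ≤ l i) → ∑ i, l i • y i = 0 → l = 0

/-- Every nonnegative representation of `w` is strictly positive. -/
def WG {ι κ : Type} [Fintype κ] (w : ι → ℝ) (y : κ → ι → ℝ) : Prop :=
  ∀ l : κ → ℝ, (∀ i, 0 ≤ l i) → ∑ i, l i • y i = w → ∀ i, 0 < l i

/-- `w` is outside the span of any `card ι - 1` vectors of `X`. -/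
def Gen {ι : Type} (X : Set (ι → ℝ)) (w : ι → ℝ) : Prop :=
  ∀ (u : ι → ι → ℝ) (i : ι), (∀ j, u j ∈ X) → w ∉ Submodule.span ℝ (u '' {j | j ≠ i})

/-- A class face: a bijection rows to columns together with the omitted row. -/
abbrev S (m : ℕ) : Type := Equiv.Perm (Fin (m + 1)) × Fin (m + 1)

/-- The row sitting at position `a` when row `b` is omitted. -/
def rowOf {m : ℕ} (b : Fin (m + 1)) (a : Fin m) : Fin (m + 1) :=
  Equiv.swap b (Fin.last m) a.castSucc

/-- The vertices of a class face. -/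
def cf {m : ℕ} {X : Type} (ψ : Fin (m + 1) → Fin (m + 1) → X) (s : S m) : Fin m → X :=
  fun a => ψ (rowOf s.2 a) (s.1 (rowOf s.2 a))

/-- The vectors of a face of the join. -/
def face {n m : ℕ} {X : Type} (Φ : Fin n → Fin (m + 1) → Fin (m + 1) → X) (s : Fin n → S m) :
    Fin n × Fin m → X :=
  fun ρ => cf (Φ ρ.1) (s ρ.1) ρ.2

/-- Coefficients of the chessboard cycle (last row omitted). -/
def epsR {m : ℕ} (s : S m) : ℤ :=
  if s.2 = Fin.last m then ((Equiv.Perm.sign s.1 : ℤˣ) : ℤ) else 0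

/-- Coefficients of the modified cycle (no face omits the last column). -/
def epsQ {m : ℕ} (s : S m) : ℤ :=
  if (s.2 = Fin.last m ↔ s.1 (Fin.last m) = Fin.last m) then 0
  else ((Equiv.Perm.sign s.1 : ℤˣ) : ℤ)

/-- Degree of a product chain with respect to the ray `w`. -/
noncomputable def Dg {n m : ℕ} (w : Fin n × Fin m → ℝ)
    (Φ : Fin n → Fin (m + 1) → Fin (m + 1) → (Fin n × Fin m → ℝ)) (ε : Fin n → S m → ℤ) : ℤ :=
  ∑ s : Fin n → S m, (∏ j, ε j (s j)) * ind w (face Φ s)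

/-- Alternating integer functions of tuples. -/
def Alt {m : ℕ} {X : Type} (F : (Fin m → X) → ℤ) : Prop :=
  ∀ (t : Fin m → X) (a b : Fin m), a ≠ b → F (t ∘ Equiv.swap a b) = -F t

/-- The class chain with coefficients `e` is a cycle. -/
def Cyc {m : ℕ} (e : S m → ℤ) : Prop :=
  ∀ (X : Type) (ψ : Fin (m + 1) → Fin (m + 1) → X) (z : X) (F : (Fin m → X) → ℤ), Alt F →
    ∑ s : S m, e s * ∑ a, F (Function.update (cf ψ s) a z) = 0

/-- All vertex vectors. -/
def verts {n m : ℕ} {X : Type} (Φ : Fin n → Fin (m + 1) → Fin (m + 1) → X) : Set X :=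
  {x | ∃ j r k, x = Φ j r k}

/-- No zero on the full faces (one bijection rows to columns in every class). -/
def FZF {n m : ℕ} {ι : Type} (Φ : Fin n → Fin (m + 1) → Fin (m + 1) → (ι → ℝ)) : Prop :=
  ∀ σ : Fin n → Equiv.Perm (Fin (m + 1)),
    ZF (fun ρ : Fin n × Fin (m + 1) => Φ ρ.1 ρ.2 (σ ρ.1 ρ.2))

/-- The simplex vectors: the standard basis and minus its sum. -/
def sv {m : ℕ} (k : Fin (m + 1)) (c : Fin m) : ℝ :=
  if k = Fin.last m then -1 else if k = c.castSucc then 1 else 0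

/-- The tensor of `x` with the simplex vector `k`. -/
def tens {n m : ℕ} (x : Fin n → ℝ) (k : Fin (m + 1)) : Fin n × Fin m → ℝ :=
  fun ρ => x ρ.1 * sv k ρ.2

/-- The cyclic shift of the simplex vectors. -/
def shift (n m : ℕ) (k : Fin (m + 1)) : (Fin n × Fin m → ℝ) →ₗ[ℝ] (Fin n × Fin m → ℝ) where
  toFun f := fun ρ => ∑ c, f (ρ.1, c) * sv (k + c.castSucc) ρ.2
  map_add' f g := by
    funext ρ
    simp [add_mul, Finset.sum_add_distrib]
  map_smul' a f := by
    funext ρ
    simp [Finset.mul_sum, mul_assoc]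

/-- A cyclic action on the target space with the right orientation character. -/
structure Act (n m : ℕ)
    (G : Fin (m + 1) → (Fin n × Fin m → ℝ) →ₗ[ℝ] (Fin n × Fin m → ℝ)) : Prop where
  zero : G 0 = LinearMap.id
  add : ∀ k l, (G k).comp (G l) = G (k + l)
  det : ∀ k, LinearMap.det (G k) = (((Equiv.Perm.sign (Equiv.addLeft k) : ℤˣ) : ℤ) : ℝ) ^ n

/-! ### Interface statements -/

/-- The cocycle identity. -/
def S_LemC : Prop :=
  ∀ (ι : Type) [Fintype ι] [DecidableEq ι] (w z : ι → ℝ) (u : ι → ι → ℝ),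
    WG w u → (∀ i, WG w (Function.update u i z)) →
    ZF u → (∀ i, ZF (Function.update u i z)) →
    ind w u = ∑ i, ind w (Function.update u i z) + ind (-z) u

/-- Generic vectors exist, simultaneously for finitely many surjective maps. -/
def S_GenEx : Prop :=
  ∀ (ι κ : Type) [Fintype ι] [Fintype κ] (X : Set (ι → ℝ)), X.Finite →
    ∀ G : κ → (ι → ℝ) →ₗ[ℝ] (ι → ℝ), (∀ k, Function.Surjective (G k)) →
      ∃ w, ∀ k, Gen X (G k w)

/-- The two class chains are cycles. -/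
def S_Cyc : Prop := ∀ m : ℕ, Cyc (epsR (m := m)) ∧ Cyc (epsQ (m := m))

/-- Changing the ray. -/
def S_WChange : Prop :=
  ∀ (n m : ℕ) (Φ : Fin n → Fin (m + 1) → Fin (m + 1) → (Fin n × Fin m → ℝ))
    (ε : Fin n → S m → ℤ) (w w' : Fin n × Fin m → ℝ),
    (∀ j, Cyc (ε j)) →
    (∀ s : Fin n → S m, (∀ j, ε j (s j) ≠ 0) → ZF (face Φ s) ∧ WG w' (face Φ s)) →
    Gen (insert (-w') (verts Φ)) w → Dg w Φ ε = Dg w' Φ ε

/-- Without zeros on full faces the two product cycles have the same degree. -/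
def S_TStep : Prop :=
  ∀ (n m : ℕ) (Φ : Fin n → Fin (m + 1) → Fin (m + 1) → (Fin n × Fin m → ℝ))
    (w : Fin n × Fin m → ℝ), FZF Φ → Gen (verts Φ) w →
    Dg w Φ (fun _ => epsR) = Dg w Φ (fun _ => epsQ)

/-- Equivariant maps have congruent degrees. -/
def S_Equi : Prop :=
  ∀ (n m : ℕ) (G : Fin (m + 1) → (Fin n × Fin m → ℝ) →ₗ[ℝ] (Fin n × Fin m → ℝ)), Act n m G →
    ∀ (U U' : Fin n → Fin (m + 1) → (Fin n × Fin m → ℝ)) (w w' : Fin n × Fin m → ℝ),
      (∀ s : Fin n → S m, (∀ j, (s j).2 = Fin.last m) → ZF (face (fun j r k => G k (U j r)) s)) →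
      (∀ s : Fin n → S m, (∀ j, (s j).2 = Fin.last m) → ZF (face (fun j r k => G k (U' j r)) s)) →
      Gen (verts (fun j r k => G k (U j r))) w → Gen (verts (fun j r k => G k (U' j r))) w' →
      ((m + 1 : ℕ) : ℤ) ∣ Dg w (fun j r k => G k (U j r)) (fun _ => epsR)
        - Dg w' (fun j r k => G k (U' j r)) (fun _ => epsR)

/-- The shift is an action and moves the simplex vectors. -/
def S_Shift : Prop :=
  ∀ n m : ℕ, (m + 1).Prime → Act n m (shift n m) ∧
    ∀ (x : Fin n → ℝ) (k l : Fin (m + 1)), shift n m k (tens x l) = tens x (k + l)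

/-- The clustered configuration. -/
def S_Clus : Prop :=
  ∀ n m : ℕ,
    (∀ s : Fin n → S m,
      ZF (face (fun j (_ : Fin (m + 1)) k => (tens (Pi.single j 1) k : Fin n × Fin m → ℝ)) s) ∧
      WG (fun _ => (1 : ℝ))
        (face (fun j (_ : Fin (m + 1)) k => (tens (Pi.single j 1) k : Fin n × Fin m → ℝ)) s)) ∧
    Dg (fun _ => (1 : ℝ))
      (fun j (_ : Fin (m + 1)) k => (tens (Pi.single j 1) k : Fin n × Fin m → ℝ))
      (fun _ => epsR) = ((m.factorial : ℤ)) ^ n

/-- Perturbation to general position. -/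
def S_Pert : Prop :=
  ∀ (n m : ℕ) (h : Fin n → Fin (m + 1) → (Fin n → ℝ)), 0 < n → (∀ j r, 0 < ∑ i, h j r i) →
    FZF (fun j r k => (tens (h j r) k : Fin n × Fin m → ℝ)) →
    ∃ h' : Fin n → Fin (m + 1) → (Fin n → ℝ),
      FZF (fun j r k => (tens (h' j r) k : Fin n × Fin m → ℝ)) ∧
      ∀ s : Fin n → S m, (∀ j, (s j).1 (s j).2 ≠ Fin.last m) →
        ∀ l : Fin n × Fin m → ℝ, (∀ ρ, 0 ≤ l ρ) →
          ∑ ρ, l ρ • face (fun j r k => (tens (h' j r) k : Fin n × Fin m → ℝ)) s ρ ≠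
            fun _ => (1 : ℝ)

/-- The linear core of the theorem. -/
def S_Core : Prop :=
  ∀ (n m : ℕ) (h : Fin n → Fin (m + 1) → (Fin n → ℝ)), (m + 1).Prime → 0 < n →
    (∀ j r, 0 < ∑ i, h j r i) → ¬ FZF (fun j r k => (tens (h j r) k : Fin n × Fin m → ℝ))

/-- The coloured Tverberg theorem for a prime number of parts. -/
def S_Main : Prop :=
  ∀ (r d : ℕ), r.Prime → ∀ (C : Fin (d + 1) → Finset (EuclideanSpace ℝ (Fin d))),
    Pairwise (fun i j => Disjoint (C i) (C j)) →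
    (∀ i, r ≤ (C i).card) →
    ∃ f : Fin r → Fin (d + 1) → EuclideanSpace ℝ (Fin d),
      (∀ j i, f j i ∈ C i) ∧
      Function.Injective (fun p : Fin r × Fin (d + 1) => f p.1 p.2) ∧
      ∃ x : EuclideanSpace ℝ (Fin d), ∀ j, x ∈ convexHull ℝ (Set.range (f j))

end Pool.Agent.P.MP_9ca318_co
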