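import Pool.Agent.P.MP_9ca318_co.Steps

set_option autoImplicit false

namespace Pool.Agent.P.MP_9ca318_co

open Finset

variable {n m : ℕ}

lemma dvd_sum_of_free {A : Type} [Fintype A] (T : Fin (m + 1) → A ≃ A) (c : A → Fin (m + 1))
    (F : A → ℤ) (hc : ∀ k a, c (T k a) = k + c a) (hF : ∀ k a, F (T k a) = F a) :
    ((m + 1 : ℕ) : ℤ) ∣ ∑ a, F a := by
  have h1 : ∑ a, F a = ∑ k : Fin (m + 1), ∑ a, if c a = k then F a else 0 := by
    rw [Finset.sum_comm]
    simp
  have h2 : ∀ k : Fin (m + 1), ∑ a, (if c a = k then F a else 0) =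
      ∑ a, if c a = 0 then F a else 0 := by
    intro k
    rw [← Equiv.sum_comp (T k)]
    refine Finset.sum_congr rfl fun a _ => ?_
    simp only [hc, hF, add_eq_left]
  rw [h1, Finset.sum_congr rfl fun k _ => h2 k]
  simp

lemma epsR_inv (a : Fin m) (H : S m → ℤ)
    (hH : ∀ σ : Equiv.Perm (Fin (m + 1)),
      H (σ * Equiv.swap a.castSucc (Fin.last m), Fin.last m) = H (σ, Fin.last m)) :
    ∑ x, epsR x * H x = 0 := by
  have h1 : ∑ x, epsR x * H x =
      ∑ σ : Equiv.Perm (Fin (m + 1)), ((Equiv.Perm.sign σ : ℤˣ) : ℤ) * H (σ, Fin.last m) := by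
    rw [Fintype.sum_prod_type]
    refine Finset.sum_congr rfl fun σ _ => ?_
    simp [epsR]
  have h2 : ∑ σ : Equiv.Perm (Fin (m + 1)), ((Equiv.Perm.sign σ : ℤˣ) : ℤ) * H (σ, Fin.last m) =
      -∑ σ : Equiv.Perm (Fin (m + 1)), ((Equiv.Perm.sign σ : ℤˣ) : ℤ) * H (σ, Fin.last m) := by
    conv_lhs => rw [← Equiv.sum_comp (Equiv.mulRight (Equiv.swap a.castSucc (Fin.last m)))]
    rw [← Finset.sum_neg_distrib]
    refine Finset.sum_congr rfl fun σ _ => ?_
    simp only [Equiv.coe_mulRight, hH, map_mul,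
      Equiv.Perm.sign_swap (Fin.castSucc_lt_last a).ne]
    simp
  rw [h1]
  omega

lemma epsR_ne {x : S m} (h : epsR x ≠ 0) : x.2 = Fin.last m := by
  by_contra h'
  exact h (by simp [epsR, h'])

/-- The vertex map generated by the vectors `U` under the action. -/
abbrev vm (G : Fin (m + 1) → (Fin n × Fin m → ℝ) →ₗ[ℝ] (Fin n × Fin m → ℝ))
    (U : Fin n → Fin (m + 1) → (Fin n × Fin m → ℝ)) :
    Fin n → Fin (m + 1) → Fin (m + 1) → (Fin n × Fin m → ℝ) := fun j r k => G k (U j r)

/-- No zero on the faces of the chessboard cycle. -/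
def ZR (Φ : Fin n → Fin (m + 1) → Fin (m + 1) → (Fin n × Fin m → ℝ)) : Prop :=
  ∀ s : Fin n → S m, (∀ j, (s j).2 = Fin.last m) → ZF (face Φ s)

lemma wind (hC : S_LemC) (hE : S_GenEx) (hcyc : S_Cyc)
    {Φ : Fin n → Fin (m + 1) → Fin (m + 1) → (Fin n × Fin m → ℝ)} (hΦ : ZR Φ)
    {w w' : Fin n × Fin m → ℝ} (hw : Gen (verts Φ) w) (hw' : Gen (verts Φ) w') :
    Dg w Φ (fun _ => epsR) = Dg w' Φ (fun _ => epsR) := by
  obtain ⟨v, hv⟩ := hE _ Unit (insert (-w) (insert (-w') (verts Φ)))
    (((verts_finite Φ).insert _).insert _) (fun _ => LinearMap.id)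
    (fun _ => Function.surjective_id)
  have hv' : Gen (insert (-w) (insert (-w') (verts Φ))) v := hv ()
  rw [← wchange hC n m Φ _ v w (fun _ => (hcyc m).1)
      (fun s hs => ⟨hΦ s fun j => epsR_ne (hs j), hw.wg (face_mem Φ s)⟩)
      (hv'.mono (Set.insert_subset_insert (Set.subset_insert _ _))),
    ← wchange hC n m Φ _ v w' (fun _ => (hcyc m).1)
      (fun s hs => ⟨hΦ s fun j => epsR_ne (hs j), hw'.wg (face_mem Φ s)⟩)
      (hv'.mono (Set.subset_insert _ _))]

/-- Change of one generating vector. -/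
def chg (U : Fin n → Fin (m + 1) → (Fin n × Fin m → ℝ)) (ρ : Fin n × Fin (m + 1))
    (z : Fin n × Fin m → ℝ) : Fin n → Fin (m + 1) → (Fin n × Fin m → ℝ) :=
  fun j r => if (j, r) = ρ then z else U j r

lemma face_chg_last (G : Fin (m + 1) → (Fin n × Fin m → ℝ) →ₗ[ℝ] (Fin n × Fin m → ℝ))
    (U : Fin n → Fin (m + 1) → (Fin n × Fin m → ℝ)) (j : Fin n) (z : Fin n × Fin m → ℝ)
    (s : Fin n → S m) (hs : ∀ j, (s j).2 = Fin.last m) :
    face (vm G (chg U (j, Fin.last m) z)) s = face (vm G U) s := by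
  funext ρ
  simp [face, cf, vm, chg, hs, rowOf_last, (Fin.castSucc_lt_last _).ne]

lemma face_chg (G : Fin (m + 1) → (Fin n × Fin m → ℝ) →ₗ[ℝ] (Fin n × Fin m → ℝ))
    (U : Fin n → Fin (m + 1) → (Fin n × Fin m → ℝ)) (j : Fin n) (a : Fin m)
    (z : Fin n × Fin m → ℝ) (s : Fin n → S m) (hs : ∀ j, (s j).2 = Fin.last m) :
    face (vm G (chg U (j, a.castSucc) z)) s =
      Function.update (face (vm G U) s) (j, a) (G ((s j).1 a.castSucc) z) := by
  funext ρ
  by_cases h : ρ = (j, a)
  · subst h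
    simp [face, cf, vm, chg, hs, rowOf_last]
  · rw [Function.update_of_ne h]
    have : ¬ (ρ.1 = j ∧ ρ.2 = a) := fun h' => h (Prod.ext h'.1 h'.2)
    simp [face, cf, vm, chg, hs, rowOf_last, this]

lemma Act.inj {G : Fin (m + 1) → (Fin n × Fin m → ℝ) →ₗ[ℝ] (Fin n × Fin m → ℝ)} (hG : Act n m G)
    (k : Fin (m + 1)) : Function.Injective (G k) := by
  have h : (G (-k)).comp (G k) = LinearMap.id := by rw [hG.add, neg_add_cancel, hG.zero]
  exact Function.LeftInverse.injective (g := G (-k)) fun x => LinearMap.congr_fun h x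

lemma Act.surj {G : Fin (m + 1) → (Fin n × Fin m → ℝ) →ₗ[ℝ] (Fin n × Fin m → ℝ)} (hG : Act n m G)
    (k : Fin (m + 1)) : Function.Surjective (G k) := by
  have h : (G k).comp (G (-k)) = LinearMap.id := by rw [hG.add, add_neg_cancel, hG.zero]
  exact Function.RightInverse.surjective (g := G (-k)) fun x => LinearMap.congr_fun h x

lemma Act.app {G : Fin (m + 1) → (Fin n × Fin m → ℝ) →ₗ[ℝ] (Fin n × Fin m → ℝ)} (hG : Act n m G)
    (k l : Fin (m + 1)) (x : Fin n × Fin m → ℝ) : G (k + l) x = G k (G l x) := by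
  rw [← hG.add]; rfl

/-- Shift of all columns. -/
def shS (k : Fin (m + 1)) : (Fin n → S m) ≃ (Fin n → S m) :=
  Equiv.piCongrRight fun _ => Equiv.prodCongr (Equiv.mulLeft (Equiv.addLeft k)) (Equiv.refl _)

lemma shS_fst (k : Fin (m + 1)) (s : Fin n → S m) (j : Fin n) :
    (shS k s j).1 = Equiv.addLeft k * (s j).1 := rfl

lemma shS_snd (k : Fin (m + 1)) (s : Fin n → S m) (j : Fin n) : (shS k s j).2 = (s j).2 := rfl

lemma step_dvd {G : Fin (m + 1) → (Fin n × Fin m → ℝ) →ₗ[ℝ] (Fin n × Fin m → ℝ)} (hG : Act n m G)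
    (U : Fin n → Fin (m + 1) → (Fin n × Fin m → ℝ)) (j : Fin n) (r : Fin (m + 1))
    (z : Fin n × Fin m → ℝ) :
    ((m + 1 : ℕ) : ℤ) ∣ ∑ s : Fin n → S m, (∏ i, epsR (s i)) *
      ind (-(G ((s j).1 r) z)) (face (vm G U) s) := by
  refine dvd_sum_of_free (fun k => shS k) (fun s => (s j).1 r) _ (fun k s => rfl) fun k s => ?_
  have h1 : ∏ i, epsR (shS k s i) =
      ((Equiv.Perm.sign (Equiv.addLeft k) : ℤˣ) : ℤ) ^ n * ∏ i, epsR (s i) := by
    have : ∀ i, epsR (shS k s i) = ((Equiv.Perm.sign (Equiv.addLeft k) : ℤˣ) : ℤ) * epsR (s i) := by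
      intro i
      unfold epsR
      rw [shS_fst, shS_snd, map_mul]
      split_ifs <;> simp
    simp [this, Finset.prod_mul_distrib]
  have h2 : face (vm G U) (shS k s) = fun ρ => G k (face (vm G U) s ρ) := by
    funext ρ
    simp only [face, cf, vm, shS_fst, shS_snd]
    rw [← hG.app]
    rfl
  have h3 : -(G ((shS k s j).1 r) z) = G k (-(G ((s j).1 r) z)) := by
    rw [map_neg, ← hG.app]
    rfl
  rw [h1, h2, h3, ind_map _ (hG.inj k), hG.det]
  rcases Int.units_eq_one_or (Equiv.Perm.sign (Equiv.addLeft k)) with h | h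
  · simp [h]
  · rcases Nat.even_or_odd n with hn | hn
    · simp [h, hn.neg_one_pow]
    · simp [h, hn.neg_one_pow]

lemma step (hC : S_LemC) (hcyc : S_Cyc)
    {G : Fin (m + 1) → (Fin n × Fin m → ℝ) →ₗ[ℝ] (Fin n × Fin m → ℝ)} (hG : Act n m G)
    {U : Fin n → Fin (m + 1) → (Fin n × Fin m → ℝ)} (hU : ZR (vm G U)) (ρ : Fin n × Fin (m + 1))
    {z : Fin n × Fin m → ℝ} (hz : ∀ k, Gen (verts (vm G U)) (G k z)) :
    ZR (vm G (chg U ρ z)) ∧ ∀ w, Gen (verts (vm G U) ∪ verts (vm G (chg U ρ z))) w →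
      ((m + 1 : ℕ) : ℤ) ∣ Dg w (vm G U) (fun _ => epsR) - Dg w (vm G (chg U ρ z)) (fun _ => epsR) := by
  obtain ⟨j, r⟩ := ρ
  induction r using Fin.lastCases with
  | last =>
    refine ⟨fun s hs => by rw [face_chg_last G U j z s hs]; exact hU s hs, fun w _ => ?_⟩
    have : Dg w (vm G U) (fun _ => epsR) = Dg w (vm G (chg U (j, Fin.last m) z)) (fun _ => epsR) := by
      unfold Dg
      refine Finset.sum_congr rfl fun s _ => ?_
      by_cases hs : ∀ i, epsR (s i) ≠ 0
      · rw [face_chg_last G U j z s fun i => epsR_ne (hs i)]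
      · push Not at hs
        obtain ⟨i, hi⟩ := hs
        rw [Finset.prod_eq_zero (Finset.mem_univ i) hi, zero_mul, zero_mul]
    rw [this, sub_self]
    exact dvd_zero _
  | cast a =>
    refine ⟨fun s hs => ?_, fun w hw => ?_⟩
    · rw [face_chg G U j a z s hs]
      exact (hz _).zf_update (face_mem _ s) (hU s hs) _
    have key : ∀ s : Fin n → S m, (∏ i, epsR (s i)) * ind w (face (vm G U) s) =
        (∏ i, epsR (s i)) * ind w (face (vm G (chg U (j, a.castSucc) z)) s) +
        ∑ b ∈ univ.erase a, (∏ i, epsR (s i)) *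
          ind w (Function.update (face (vm G U) s) (j, b) (G ((s j).1 a.castSucc) z)) +
        ∑ i ∈ univ.erase j, (∏ i, epsR (s i)) *
          ∑ b, ind w (Function.update (face (vm G U) s) (i, b) (G ((s j).1 a.castSucc) z)) +
        (∏ i, epsR (s i)) * ind (-(G ((s j).1 a.castSucc) z)) (face (vm G U) s) := by
      intro s
      by_cases h0 : ∀ i, epsR (s i) ≠ 0
      · have hs : ∀ i, (s i).2 = Fin.last m := fun i => epsR_ne (h0 i)
        have hm : ∀ ρ, face (vm G U) s ρ ∈ verts (vm G U) ∪ verts (vm G (chg U (j, a.castSucc) z)) :=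
          fun ρ => Or.inl (face_mem _ s ρ)
        have hzm : G ((s j).1 a.castSucc) z ∈
            verts (vm G U) ∪ verts (vm G (chg U (j, a.castSucc) z)) :=
          Or.inr ⟨j, a.castSucc, (s j).1 a.castSucc, by simp [vm, chg]⟩
        have := hC _ w (G ((s j).1 a.castSucc) z) (face (vm G U) s) (hw.wg hm)
          (fun i => hw.wg (update_mem hm hzm i)) (hU s hs)
          (fun i => (hz _).zf_update (face_mem _ s) (hU s hs) i)
        rw [this, Fintype.sum_prod_type, ← Finset.add_sum_erase _ _ (Finset.mem_univ j),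
          ← Finset.add_sum_erase _ _ (Finset.mem_univ a), face_chg G U j a z s hs,
          ← Finset.mul_sum, ← Finset.mul_sum]
        ring
      · push Not at h0
        obtain ⟨i, hi⟩ := h0
        rw [Finset.prod_eq_zero (Finset.mem_univ i) hi]
        simp
    have k1 : ∑ s : Fin n → S m, ∑ b ∈ univ.erase a, (∏ i, epsR (s i)) *
        ind w (Function.update (face (vm G U) s) (j, b) (G ((s j).1 a.castSucc) z)) = 0 := by
      rw [Finset.sum_comm]
      refine Finset.sum_eq_zero fun b hb => ?_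
      have hb' := Finset.ne_of_mem_erase hb
      refine fub (fun _ => epsR) _ j fun s => ?_
      simp only [face_update, update_setc, Function.update_self]
      refine epsR_inv b (fun x => ind w (setc (face (vm G U) s) j
        (Function.update (cf (vm G U j) x) b (G (x.1 a.castSucc) z)))) fun σ => ?_
      have e1 : (σ * Equiv.swap b.castSucc (Fin.last m)) a.castSucc = σ a.castSucc := by
        rw [Equiv.Perm.mul_apply, Equiv.swap_apply_of_ne_of_ne (by simpa using hb'.symm)
          (Fin.castSucc_lt_last a).ne]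
      simp only [e1]
      congr 2
      funext c
      by_cases hc : c = b
      · subst hc
        simp
      · rw [Function.update_of_ne hc, Function.update_of_ne hc]
        simp only [cf, rowOf_last]
        rw [Equiv.Perm.mul_apply, Equiv.swap_apply_of_ne_of_ne (by simpa using hc)
          (Fin.castSucc_lt_last c).ne]
    have k2 : ∑ s : Fin n → S m, ∑ i ∈ univ.erase j, (∏ i, epsR (s i)) *
        ∑ b, ind w (Function.update (face (vm G U) s) (i, b) (G ((s j).1 a.castSucc) z)) = 0 := by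
      rw [Finset.sum_comm]
      refine Finset.sum_eq_zero fun i hi => ?_
      have hi' := Finset.ne_of_mem_erase hi
      exact cyc_sum w (vm G U) (fun _ => epsR) i (hcyc m).1 (fun s => G ((s j).1 a.castSucc) z)
        (fun s x => by rw [Function.update_of_ne hi'.symm])
    unfold Dg
    rw [Finset.sum_congr rfl fun s _ => key s, Finset.sum_add_distrib, Finset.sum_add_distrib,
      Finset.sum_add_distrib, k1, k2, add_zero, add_zero, add_sub_cancel_left]
    exact step_dvd hG U j a.castSucc z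

theorem equi (hC : S_LemC) (hE : S_GenEx) (hcyc : S_Cyc) : S_Equi := by
  intro n m G hG
  have key : ∀ (A : Finset (Fin n × Fin (m + 1)))
      (U U' : Fin n → Fin (m + 1) → (Fin n × Fin m → ℝ)) (w w' : Fin n × Fin m → ℝ),
      (∀ j r, (j, r) ∉ A → U j r = U' j r) → ZR (vm G U) → ZR (vm G U') →
      Gen (verts (vm G U)) w → Gen (verts (vm G U')) w' →
      ((m + 1 : ℕ) : ℤ) ∣ Dg w (vm G U) (fun _ => epsR) - Dg w' (vm G U') (fun _ => epsR) := by
    intro A
    induction A using Finset.induction_on with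
    | empty =>
      intro U U' w w' h hU hU' hw hw'
      have : U = U' := funext fun j => funext fun r => h j r (by simp)
      subst this
      rw [wind hC hE hcyc hU hw hw', sub_self]
      exact dvd_zero _
    | insert ρ A hρ ih =>
      intro U U' w w' h hU hU' hw hw'
      obtain ⟨z, hz⟩ := hE _ (Fin (m + 1)) (verts (vm G U) ∪ verts (vm G U'))
        ((verts_finite _).union (verts_finite _)) G hG.surj
      obtain ⟨h1, h2⟩ := step hC hcyc hG hU ρ (fun k => (hz k).mono Set.subset_union_left)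
      obtain ⟨h3, h4⟩ := step hC hcyc hG hU' ρ (fun k => (hz k).mono Set.subset_union_right)
      obtain ⟨v, hv⟩ := hE _ Unit ((verts (vm G U) ∪ verts (vm G (chg U ρ z))) ∪
        (verts (vm G U') ∪ verts (vm G (chg U' ρ z))))
        (((verts_finite _).union (verts_finite _)).union ((verts_finite _).union (verts_finite _)))
        (fun _ => LinearMap.id) (fun _ => Function.surjective_id)
      have hv' : Gen ((verts (vm G U) ∪ verts (vm G (chg U ρ z))) ∪
        (verts (vm G U') ∪ verts (vm G (chg U' ρ z)))) v := hv ()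
      have hv1 := hv'.mono Set.subset_union_left
      have hv2 := hv'.mono Set.subset_union_right
      have h5 := ih (chg U ρ z) (chg U' ρ z) v v (fun j r hjr => by
        unfold chg
        split_ifs with hh
        · rfl
        · exact h j r (by simp [hh, hjr])) h1 h3 (hv1.mono Set.subset_union_right)
        (hv2.mono Set.subset_union_right)
      rw [wind hC hE hcyc hU hw (hv1.mono Set.subset_union_left),
        wind hC hE hcyc hU' hw' (hv2.mono Set.subset_union_left)]
      have := (dvd_add (h2 v hv1) h5).sub (h4 v hv2)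
      rwa [sub_add_sub_cancel, sub_sub_sub_cancel_right] at this
  intro U U' w w' hU hU' hw hw'
  exact key Finset.univ U U' w w' (fun j r h => absurd (Finset.mem_univ _) h) hU hU' hw hw'

theorem core (hC : S_LemC) (hE : S_GenEx) (hcyc : S_Cyc) (hS : S_Shift) (hK : S_Clus)
    (hP : S_Pert) : S_Core := by
  intro n m h hp hn hpos hF
  obtain ⟨h', hF', hray⟩ := hP n m h hn hpos hF
  obtain ⟨hG, hT⟩ := hS n m hp
  obtain ⟨hK1, hK2⟩ := hK n m
  set Φ : Fin n → Fin (m + 1) → Fin (m + 1) → (Fin n × Fin m → ℝ) :=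
    fun j r k => tens (h' j r) k with hΦ
  set Ψ : Fin n → Fin (m + 1) → Fin (m + 1) → (Fin n × Fin m → ℝ) :=
    fun j _ k => tens (Pi.single j 1) k with hΨ
  obtain ⟨v, hv⟩ := hE _ Unit (insert (-fun _ => (1 : ℝ)) (verts Φ ∪ verts Ψ))
    (((verts_finite _).union (verts_finite _)).insert _)
    (fun _ => LinearMap.id) (fun _ => Function.surjective_id)
  have hv' : Gen (insert (-fun _ => (1 : ℝ)) (verts Φ ∪ verts Ψ)) v := hv ()
  have hv1 : Gen (insert (-fun _ => (1 : ℝ)) (verts Φ)) v :=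
    hv'.mono (Set.insert_subset_insert Set.subset_union_left)
  have hv2 : Gen (insert (-fun _ => (1 : ℝ)) (verts Ψ)) v :=
    hv'.mono (Set.insert_subset_insert Set.subset_union_right)
  have hQ : ∀ x : S m, epsQ x ≠ 0 → x.1 x.2 ≠ Fin.last m := by
    intro x hx h1
    apply hx
    unfold epsQ
    rw [if_pos]
    constructor
    · intro h2
      rwa [h2] at h1
    · intro h2
      exact x.1.injective (h1.trans h2.symm)
  have e1 : Dg v Φ (fun _ => epsR) = 0 := by
    rw [tstep hC hcyc n m Φ v hF' (hv1.mono (Set.subset_insert _ _)),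
      wchange hC n m Φ _ v (fun _ => 1) (fun _ => (hcyc m).2)
        (fun s hs => ⟨hF'.face s, fun l hl h1 => absurd h1 (hray s (fun j => hQ _ (hs j)) l hl)⟩) hv1]
    unfold Dg
    refine Finset.sum_eq_zero fun s _ => ?_
    by_cases hs : ∀ j, epsQ (s j) ≠ 0
    · rw [ind_eq_zero (hray s fun j => hQ _ (hs j)), mul_zero]
    · push Not at hs
      obtain ⟨i, hi⟩ := hs
      rw [Finset.prod_eq_zero (Finset.mem_univ i) hi, zero_mul]
  have e2 : Dg v Ψ (fun _ => epsR) = (m.factorial : ℤ) ^ n := by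
    rw [wchange hC n m Ψ _ v (fun _ => 1) (fun _ => (hcyc m).1) (fun s _ => hK1 s) hv2, hK2]
  have hΦ' : (fun j r k => shift n m k (tens (h' j r) 0)) = Φ := by
    funext j r k
    rw [hT, add_zero]
  have hΨ' : (fun j (_ : Fin (m + 1)) k => shift n m k (tens (Pi.single j 1) 0)) = Ψ := by
    funext j r k
    rw [hT, add_zero]
  have := equi hC hE hcyc n m _ hG (fun j r => tens (h' j r) 0) (fun j _ => tens (Pi.single j 1) 0)
    v v (by rw [hΦ']; exact fun s _ => hF'.face s) (by rw [hΨ']; exact fun s _ => (hK1 s).1)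
    (by rw [hΦ']; exact hv1.mono (Set.subset_insert _ _))
    (by rw [hΨ']; exact hv2.mono (Set.subset_insert _ _))
  rw [hΦ', hΨ', e1, e2, zero_sub, dvd_neg] at this
  have h3 : (m + 1) ∣ m.factorial ^ n := by exact_mod_cast this
  have h4 := (hp.dvd_factorial).1 (hp.dvd_of_dvd_pow h3)
  omega

end Pool.Agent.P.MP_9ca318_co
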