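import Pool.Agent.P.MP_9ca318_co.Defs

/-!
From the linear core to the coloured Tverberg theorem.
-/

set_option autoImplicit false

namespace Pool.Agent.P.MP_9ca318_co

open Finset

namespace Final

theorem sum_sv {m : ℕ} (a : Fin (m + 1) → ℝ) (c : Fin m) :
    ∑ k, a k * sv k c = a c.castSucc - a (Fin.last m) := by
  rw [Fin.sum_univ_castSucc]
  have h : ∀ k : Fin m, a k.castSucc * sv k.castSucc c = if k = c then a k.castSucc else 0 := by
    intro k
    simp [sv, Fin.castSucc_ne_last]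
  simp only [h, sum_ite_eq', mem_univ, if_true]
  simp [sv, sub_eq_add_neg]

theorem cols {n m : ℕ} (h : Fin n → Fin (m + 1) → (Fin n → ℝ))
    (σ : Fin n → Equiv.Perm (Fin (m + 1))) (l : Fin n × Fin (m + 1) → ℝ)
    (h0 : ∑ ρ, l ρ • (tens (h ρ.1 ρ.2) (σ ρ.1 ρ.2) : Fin n × Fin m → ℝ) = 0) (i : Fin n)
    (k : Fin (m + 1)) :
    ∑ j, l (j, (σ j).symm k) * h j ((σ j).symm k) i =
      ∑ j, l (j, (σ j).symm (Fin.last m)) * h j ((σ j).symm (Fin.last m)) i := by
  induction k using Fin.lastCases with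
  | last => rfl
  | cast c =>
    have h1 := congrFun h0 (i, c)
    rw [Finset.sum_apply, Fintype.sum_prod_type] at h1
    rw [← sub_eq_zero, ← sum_sub_distrib]
    refine Eq.trans (sum_congr rfl fun j _ => ?_) h1
    rw [← sum_sv (fun k => l (j, (σ j).symm k) * h j ((σ j).symm k) i) c,
      ← Equiv.sum_comp (σ j)]
    refine sum_congr rfl fun r _ => ?_
    simp [tens, mul_assoc]

end Final

theorem main_of_core (hc : S_Core) : S_Main := by
  intro r d hr C hC hcard
  obtain ⟨m, rfl⟩ : ∃ m, r = m + 1 := ⟨r - 1, by have := hr.pos; omega⟩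
  have hx : ∀ j, ∃ x : Fin (m + 1) ↪ EuclideanSpace ℝ (Fin d), Set.range x ⊆ C j := fun j =>
    Function.Embedding.exists_of_card_le_finset (by simpa using hcard j)
  choose x hx using hx
  have hxC : ∀ j r, x j r ∈ C j := fun j r => hx j ⟨r, rfl⟩
  let h : Fin (d + 1) → Fin (m + 1) → Fin (d + 1) → ℝ :=
    fun j r => Fin.cons (1 - ∑ i, x j r i) fun i => x j r i
  have hs : ∀ j r, ∑ i, h j r i = 1 := fun j r => by simp [h, Fin.sum_univ_succ]
  have h1 := hc (d + 1) m h hr (Nat.succ_pos d) fun j r => by rw [hs]; exact one_pos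
  simp only [FZF, ZF, not_forall] at h1
  obtain ⟨σ, l, hl, h0, hne⟩ := h1
  have h2 := Final.cols h σ l h0
  set W := ∑ j, l (j, (σ j).symm (Fin.last m)) with hW
  have h3 : ∀ k, ∑ j, l (j, (σ j).symm k) = W := fun k => by
    have e : ∀ k, ∑ i, ∑ j, l (j, (σ j).symm k) * h j ((σ j).symm k) i =
        ∑ j, l (j, (σ j).symm k) := fun k => by
      rw [sum_comm]
      exact sum_congr rfl fun j _ => by rw [← mul_sum, hs, mul_one]
    rw [hW, ← e, ← e]
    exact sum_congr rfl fun i _ => h2 i k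
  have h4 : 0 < W := by
    obtain ⟨ρ, hρ⟩ := Function.ne_iff.1 hne
    rw [← h3 (σ ρ.1 ρ.2)]
    refine sum_pos' (fun j _ => hl _) ⟨ρ.1, mem_univ _, ?_⟩
    rw [Equiv.symm_apply_apply]
    exact lt_of_le_of_ne (hl ρ) (Ne.symm hρ)
  refine ⟨fun k j => x j ((σ j).symm k), fun k j => hxC _ _, ?_,
    univ.centerMass (fun j => l (j, (σ j).symm (Fin.last m)))
      fun j => x j ((σ j).symm (Fin.last m)), fun k => ?_⟩
  · rintro ⟨k, j⟩ ⟨k', j'⟩ e
    simp only at e
    obtain rfl : j = j' := by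
      by_contra hj
      exact disjoint_left.1 (hC hj) (hxC j _) (e ▸ hxC j' _)
    rw [(σ j).symm.injective ((x j).injective e)]
  · have e : univ.centerMass (fun j => l (j, (σ j).symm (Fin.last m)))
        (fun j => x j ((σ j).symm (Fin.last m))) =
        univ.centerMass (fun j => l (j, (σ j).symm k)) fun j => x j ((σ j).symm k) := by
      rw [centerMass, centerMass, h3, h3]
      congr 1
      ext i
      simpa [h] using (h2 i.succ k).symm
    rw [e]
    exact centerMass_mem_convexHull _ (fun j _ => hl _) (by rw [h3]; exact h4)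
      fun j _ => ⟨j, rfl⟩

end Pool.Agent.P.MP_9ca318_co
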