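import Pool.Agent.P.MP_9ca318_co.Defs

/-! Existence of generic vectors, and the two class chains are cycles. -/

set_option autoImplicit false

namespace Pool.Agent.P.MP_9ca318_co

open Finset

namespace GenCyc

theorem span_ne_top {ι : Type} [Fintype ι] (u : ι → ι → ℝ) (i : ι) :
    Submodule.span ℝ (u '' {j | j ≠ i}) ≠ ⊤ := by
  classical
  intro h
  have h1 : u '' {j | j ≠ i} = ((univ.erase i).image u : Finset (ι → ℝ)) := by
    ext x; simp
  have h2 := finrank_span_finset_le_card (R := ℝ) ((univ.erase i).image u)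
  have h3 : ((univ.erase i).image u).card ≤ (univ.erase i).card := card_image_le
  have h4 : (univ.erase i).card < Fintype.card ι := card_erase_lt_of_mem (mem_univ i)
  rw [Set.finrank, ← h1, h, finrank_top, Module.finrank_fintype_fun_eq_card] at h2
  omega

variable {m : ℕ} {X : Type}

theorem rowOf_last (a : Fin m) : rowOf (Fin.last m) a = a.castSucc := by simp [rowOf]

theorem update_cf_swap (ψ : Fin (m + 1) → Fin (m + 1) → X) (z : X) (σ : Equiv.Perm (Fin (m + 1)))
    (a : Fin m) :
    Function.update (cf ψ (σ * Equiv.swap a.castSucc (Fin.last m), Fin.last m)) a z =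
      Function.update (cf ψ (σ, Fin.last m)) a z := by
  funext c
  by_cases hc : c = a
  · subst hc; simp
  · have h1 : c.castSucc ≠ a.castSucc := fun h => hc (Fin.castSucc_injective _ h)
    simp [Function.update_of_ne hc, cf, rowOf_last,
      Equiv.swap_apply_of_ne_of_ne h1 (Fin.castSucc_lt_last c).ne]

theorem sumR (ψ : Fin (m + 1) → Fin (m + 1) → X) (z : X) (F : (Fin m → X) → ℤ) :
    ∑ σ : Equiv.Perm (Fin (m + 1)), ((Equiv.Perm.sign σ : ℤˣ) : ℤ) *
      ∑ a, F (Function.update (cf ψ (σ, Fin.last m)) a z) = 0 := by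
  simp only [mul_sum]
  rw [sum_comm]
  refine sum_eq_zero fun a _ => ?_
  have h := Equiv.sum_comp (Equiv.mulRight (Equiv.swap a.castSucc (Fin.last m)))
    (fun σ : Equiv.Perm (Fin (m + 1)) => ((Equiv.Perm.sign σ : ℤˣ) : ℤ) *
      F (Function.update (cf ψ (σ, Fin.last m)) a z))
  simp only [Equiv.coe_mulRight, update_cf_swap, Equiv.Perm.sign_mul,
    Equiv.Perm.sign_swap (Fin.castSucc_lt_last a).ne, Units.val_mul, Units.val_neg, Units.val_one,
    mul_neg, mul_one, neg_mul, sum_neg_distrib] at h
  linarith

theorem cf_castSucc (ψ : Fin (m + 1) → Fin (m + 1) → X) (σ : Equiv.Perm (Fin (m + 1)))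
    (b : Fin m) : cf ψ (σ, b.castSucc) =
      Function.update (cf ψ (σ, Fin.last m)) b (ψ (Fin.last m) (σ (Fin.last m))) := by
  funext c
  by_cases hc : c = b
  · subst hc; simp [cf, rowOf]
  · have h1 : c.castSucc ≠ b.castSucc := fun h => hc (Fin.castSucc_injective _ h)
    simp [Function.update_of_ne hc, cf, rowOf,
      Equiv.swap_apply_of_ne_of_ne h1 (Fin.castSucc_lt_last c).ne]

theorem double (F : (Fin m → X) → ℤ) (hF : Alt F) (t : Fin m → X) (y z : X) :
    ∑ b, ∑ a, F (Function.update (Function.update t b y) a z) =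
      ∑ a, F (Function.update t a z) := by
  let g : Fin m → Fin m → ℤ := fun b a =>
    if a = b then 0 else F (Function.update (Function.update t b y) a z)
  have hg : ∀ b a, g b a = -g a b := by
    intro b a
    by_cases h : a = b
    · subst h; simp [g]
    · have e : Function.update (Function.update t b y) a z =
          Function.update (Function.update t a y) b z ∘ Equiv.swap a b := by
        funext c
        by_cases h1 : c = a
        · subst h1; simp
        · by_cases h2 : c = b
          · subst h2; simp [Function.update_of_ne h1, Function.update_of_ne h]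
          · simp [Function.update_of_ne h1, Function.update_of_ne h2,
              Equiv.swap_apply_of_ne_of_ne h1 h2]
      simp only [g, if_neg h, if_neg (Ne.symm h)]
      rw [e, hF _ a b h]
  have h0 : ∑ b, ∑ a, g b a = 0 := by
    have h1 : ∑ b, ∑ a, g b a = -∑ b, ∑ a, g b a := by
      conv_lhs => rw [sum_comm]
      rw [← sum_neg_distrib]
      refine sum_congr rfl fun b _ => ?_
      rw [← sum_neg_distrib]
      exact sum_congr rfl fun a _ => hg a b
    linarith
  have h2 : ∀ b a, F (Function.update (Function.update t b y) a z) =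
      g b a + if a = b then F (Function.update t b z) else 0 := by
    intro b a
    by_cases h : a = b
    · subst h; simp [g]
    · simp [g, h]
  simp only [h2, sum_add_distrib, h0, sum_ite_eq', mem_univ, if_true, zero_add]

end GenCyc

theorem genEx : S_GenEx := by
  intro ι κ _ _ X hX G hG
  have hfin : {u : ι → ι → ℝ | ∀ j, u j ∈ X}.Finite := Set.Finite.pi' fun _ => hX
  have := hfin.to_subtype
  obtain ⟨w, hw⟩ := Submodule.exists_forall_notMem_of_forall_ne_top
    (fun p : κ × {u : ι → ι → ℝ | ∀ j, u j ∈ X} × ι =>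
      (Submodule.span ℝ (p.2.1.1 '' {j | j ≠ p.2.2})).comap (G p.1)) (by
      rintro ⟨k, u, i⟩ h
      refine GenCyc.span_ne_top u.1 i (eq_top_iff.2 fun x _ => ?_)
      obtain ⟨y, rfl⟩ := hG k x
      exact (h ▸ Submodule.mem_top : y ∈ Submodule.comap (G k) _))
  exact ⟨w, fun k u i hu => hw (k, ⟨u, hu⟩, i)⟩

theorem cyc : S_Cyc := by
  intro m
  constructor
  · intro X ψ z F _
    rw [Fintype.sum_prod_type, ← GenCyc.sumR ψ z F]
    refine sum_congr rfl fun σ _ => ?_
    simp [epsR]
  · intro X ψ z F hF
    rw [Fintype.sum_prod_type, ← GenCyc.sumR ψ z F]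
    refine sum_congr rfl fun σ _ => ?_
    rw [Fin.sum_univ_castSucc]
    by_cases h : σ (Fin.last m) = Fin.last m
    · simp only [epsQ, h, (Fin.castSucc_lt_last _).ne, iff_true, if_false, if_true, zero_mul,
        add_zero, GenCyc.cf_castSucc]
      rw [← mul_sum, GenCyc.double F hF]
    · simp [epsQ, h, (Fin.castSucc_lt_last _).ne]

end Pool.Agent.P.MP_9ca318_co
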