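import Pool.Agent.P.MP_9ca318_co.Defs

/-!
The cocycle identity for the signed indicator.
-/

set_option autoImplicit false

namespace Pool.Agent.P.MP_9ca318_co

open Finset

namespace LemC

open Classical in
/-- The end points of a feasible segment on a line in direction `k`. -/
theorem count_pos {I : Type} [Fintype I] (C : (I → ℝ) → Prop) (k : I → ℝ)
    (hcl : ∀ (c : _) (t : ℝ), C c → C (c + t • k))
    (hun : ∀ c c', C c → C c' → ∃ t : ℝ, c' = c + t • k)
    (H1 : ∀ c i, C c → (∀ j, 0 ≤ c j) → c i = 0 → ∀ j, j ≠ i → 0 < c j) :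
    (∑ i, if 0 < k i ∧ (∃ c, C c ∧ c i = 0 ∧ ∀ j, j ≠ i → 0 < c j) then (1 : ℤ) else 0) =
      if (∃ c, C c ∧ ∀ j, 0 ≤ c j) ∧ (∃ i, 0 < k i) then 1 else 0 := by
  split_ifs with h
  · obtain ⟨⟨c, hc, hc0⟩, i0, hi0⟩ := h
    obtain ⟨i, hi, hmin⟩ := Finset.exists_min_image (univ.filter fun i => 0 < k i)
      (fun i => c i / k i) ⟨i0, by simpa using hi0⟩
    have hki : 0 < k i := by simpa using hi
    have hc' : C (c + (-(c i / k i)) • k) := hcl _ _ hc
    have hz : (c + (-(c i / k i)) • k) i = 0 := by
      simp only [Pi.add_apply, Pi.smul_apply, smul_eq_mul]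
      field_simp
      ring
    have hnn : ∀ j, 0 ≤ (c + (-(c i / k i)) • k) j := by
      intro j
      simp only [Pi.add_apply, Pi.smul_apply, smul_eq_mul]
      have hq : 0 ≤ c i / k i := div_nonneg (hc0 i) hki.le
      by_cases hj : 0 < k j
      · have := hmin j (by simpa using hj)
        rw [le_div_iff₀ hj] at this
        linarith
      · have h1 : k j ≤ 0 := not_lt.mp hj
        have h2 := hc0 j
        nlinarith
    have hE : 0 < k i ∧ (∃ c, C c ∧ c i = 0 ∧ ∀ j, j ≠ i → 0 < c j) :=
      ⟨hki, _, hc', hz, H1 _ _ hc' hnn hz⟩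
    rw [Finset.sum_eq_single i]
    · rw [if_pos hE]
    · intro j _ hji
      rw [if_neg]
      rintro ⟨hkj, c', hC', hz', hp'⟩
      obtain ⟨_, c'', hC'', hz'', hp''⟩ := hE
      obtain ⟨t, ht⟩ := hun c'' c' hC'' hC'
      have h1 := hp' i (Ne.symm hji)
      have h2 := hp'' j hji
      rw [ht] at h1 hz'
      simp only [Pi.add_apply, Pi.smul_apply, smul_eq_mul] at h1 hz'
      rw [hz''] at h1
      have ht0 : 0 < t := by
        by_contra hh
        have : t ≤ 0 := not_lt.mp hh
        nlinarith
      nlinarith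
    · intro hh
      exact absurd (mem_univ i) hh
  · apply Finset.sum_eq_zero
    intro i _
    rw [if_neg]
    rintro ⟨hki, c, hC, hz, hp⟩
    apply h
    refine ⟨⟨c, hC, fun j => ?_⟩, i, hki⟩
    by_cases hj : j = i
    · rw [hj, hz]
    · exact (hp j hj).le

theorem feasible {I : Type} [Fintype I] (C : (I → ℝ) → Prop) (k : I → ℝ)
    (hcl : ∀ (c : _) (t : ℝ), C c → C (c + t • k)) (hne : ∃ c, C c) (hk : ∀ i, 0 < k i) :
    ∃ c, C c ∧ ∀ j, 0 ≤ c j := by
  obtain ⟨c, hc⟩ := hne
  refine ⟨c + (∑ i, |c i| / k i) • k, hcl _ _ hc, fun j => ?_⟩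
  simp only [Pi.add_apply, Pi.smul_apply, smul_eq_mul]
  have h1 : |c j| / k j ≤ ∑ i, |c i| / k i :=
    Finset.single_le_sum (f := fun i => |c i| / k i)
      (fun i _ => div_nonneg (abs_nonneg _) (hk i).le) (mem_univ j)
  rw [div_le_iff₀ (hk j)] at h1
  have h2 := neg_abs_le (c j)
  linarith

open Classical in
/-- The line lemma. -/
theorem line {I : Type} [Fintype I] [Nonempty I] (C : (I → ℝ) → Prop) (k : I → ℝ)
    (hcl : ∀ (c : _) (t : ℝ), C c → C (c + t • k))
    (hun : ∀ c c', C c → C c' → ∃ t : ℝ, c' = c + t • k)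
    (hne : ∃ c, C c)
    (H1 : ∀ c i, C c → (∀ j, 0 ≤ c j) → c i = 0 → ∀ j, j ≠ i → 0 < c j)
    (H2 : (∀ i, 0 ≤ k i) → ∀ i, 0 < k i) (H3 : (∀ i, k i ≤ 0) → ∀ i, k i < 0) :
    (∑ i, if (∃ c, C c ∧ c i = 0 ∧ ∀ j, j ≠ i → 0 < c j) then
        ((SignType.sign (k i) : SignType) : ℤ) else 0) =
      (if ∀ i, 0 < k i then 1 else 0) - (if ∀ i, k i < 0 then 1 else 0) := by
  have hcl' : ∀ (c : _) (t : ℝ), C c → C (c + t • (-k)) := by
    intro c t hc
    have := hcl c (-t) hc
    simpa using this
  have hun' : ∀ c c', C c → C c' → ∃ t : ℝ, c' = c + t • (-k) := by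
    intro c c' hc hc'
    obtain ⟨t, ht⟩ := hun c c' hc hc'
    exact ⟨-t, by simpa using ht⟩
  have e1 := count_pos C k hcl hun H1
  have e2 := count_pos C (-k) hcl' hun' H1
  have e3 : (∑ i, if (∃ c, C c ∧ c i = 0 ∧ ∀ j, j ≠ i → 0 < c j) then
        ((SignType.sign (k i) : SignType) : ℤ) else 0) =
      (∑ i, if 0 < k i ∧ (∃ c, C c ∧ c i = 0 ∧ ∀ j, j ≠ i → 0 < c j) then (1 : ℤ) else 0) -
      (∑ i, if 0 < (-k) i ∧ (∃ c, C c ∧ c i = 0 ∧ ∀ j, j ≠ i → 0 < c j) then (1 : ℤ) else 0) := by
    rw [← Finset.sum_sub_distrib]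
    apply Finset.sum_congr rfl
    intro i _
    by_cases hE : ∃ c, C c ∧ c i = 0 ∧ ∀ j, j ≠ i → 0 < c j
    · rcases lt_trichotomy (k i) 0 with h | h | h
      · have h' : ¬ 0 < k i := not_lt.mpr h.le
        simp [hE, h, h', sign_neg h]
      · simp [hE, h]
      · have h' : ¬ k i < 0 := not_lt.mpr h.le
        simp [hE, h, h', sign_pos h]
    · simp [hE]
  rw [e3, e1, e2]
  obtain ⟨i0⟩ := ‹Nonempty I›
  by_cases hp : ∀ i, 0 < k i
  · have hn : ¬ ∀ i, k i < 0 := fun h => lt_asymm (hp i0) (h i0)
    have hn' : ¬ ∃ i, 0 < (-k) i := by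
      rintro ⟨i, hi⟩
      have := hp i
      simp only [Pi.neg_apply] at hi
      linarith
    rw [if_pos hp, if_neg hn, if_pos ⟨feasible C k hcl hne hp, i0, hp i0⟩,
      if_neg (fun h => hn' h.2)]
  · by_cases hn : ∀ i, k i < 0
    · have hp' : ¬ ∃ i, 0 < k i := by
        rintro ⟨i, hi⟩
        exact lt_asymm hi (hn i)
      have hk' : ∀ i, 0 < (-k) i := fun i => by simpa using hn i
      rw [if_neg hp, if_pos hn, if_neg (fun h => hp' h.2),
        if_pos ⟨feasible C (-k) hcl' hne hk', i0, hk' i0⟩]
    · have a1 : ∃ i, 0 < k i := by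
        by_contra hh
        push Not at hh
        exact hn (H3 hh)
      have a2 : ∃ i, 0 < (-k) i := by
        by_contra hh
        push Not at hh
        exact hp (H2 fun i => by simpa using hh i)
      rw [if_neg hp, if_neg hn]
      by_cases hF : ∃ c, C c ∧ ∀ j, 0 ≤ c j
      · rw [if_pos ⟨hF, a1⟩, if_pos ⟨hF, a2⟩]
        rfl
      · rw [if_neg (fun h => hF h.1), if_neg (fun h => hF h.1)]

/-- The embedding of the vertices of the face opposite to `o`. -/
def emb {ι : Type} [DecidableEq ι] (o : Option ι) (j : ι) : Option ι :=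
  Equiv.swap none o (some j)

theorem sum_emb {ι M : Type} [Fintype ι] [DecidableEq ι] [AddCommMonoid M] (o : Option ι)
    (f : Option ι → M) : ∑ p, f p = f o + ∑ j, f (emb o j) := by
  rw [← Equiv.sum_comp (Equiv.swap none o) f, Fintype.sum_option]
  simp [emb]

theorem emb_ne {ι : Type} [DecidableEq ι] (o : Option ι) (j : ι) : emb o j ≠ o := by
  intro h
  have : Equiv.swap none o (some j) = Equiv.swap none o none := by
    rw [Equiv.swap_apply_left]; exact h
  simpa using (Equiv.swap none o).injective this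

theorem emb_surj {ι : Type} [DecidableEq ι] (o p : Option ι) (h : p ≠ o) : ∃ j, emb o j = p := by
  cases hq : Equiv.swap none o p with
  | none =>
    exfalso
    apply h
    have : Equiv.swap none o (Equiv.swap none o p) = o := by rw [hq, Equiv.swap_apply_left]
    simpa using this
  | some j =>
    refine ⟨j, ?_⟩
    unfold emb
    rw [← hq, Equiv.swap_apply_self]

/-- Extension by zero of coefficients on the face opposite to `o`. -/
def push {ι : Type} [DecidableEq ι] (o : Option ι) (l : ι → ℝ) (p : Option ι) : ℝ :=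
  (Equiv.swap none o p).elim 0 l

theorem push_self {ι : Type} [DecidableEq ι] (o : Option ι) (l : ι → ℝ) : push o l o = 0 := by
  simp [push]

theorem push_emb {ι : Type} [DecidableEq ι] (o : Option ι) (l : ι → ℝ) (j : ι) :
    push o l (emb o j) = l j := by
  simp [push, emb]

theorem sum_smul_eq_vecMul {ι : Type} [Fintype ι] (l : ι → ℝ) (u : ι → ι → ℝ) :
    ∑ j, l j • u j = Matrix.vecMul l (Matrix.of u) := by
  funext a
  simp [Matrix.vecMul, dotProduct, Finset.sum_apply]

theorem cramer_rel {ι : Type} [Fintype ι] [DecidableEq ι] (z : ι → ℝ) (u : ι → ι → ℝ) :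
    ∑ j, Matrix.det (Matrix.of (Function.update u j z)) • u j = Matrix.det (Matrix.of u) • z := by
  rw [sum_smul_eq_vecMul]
  have h := Matrix.mulVec_cramer (Matrix.of u).transpose z
  rw [Matrix.det_transpose, Matrix.mulVec_transpose] at h
  rw [← h]
  congr 1
  funext j
  rw [Matrix.cramer_transpose_apply]
  rfl

end LemC

open LemC in
theorem lemC : S_LemC := by
  intro ι _ _ w z u hW hW' hZ hZ'
  classical
  let y : Option ι → ι → ℝ := fun o => o.elim z u
  let fc : Option ι → ι → ι → ℝ := fun o j => y (emb o j)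
  have fc0 : fc none = u := by
    funext j
    simp [fc, y, emb]
  have fc1 : ∀ i, fc (some i) = Function.update u i z := by
    intro i
    funext j
    by_cases hj : j = i
    · subst hj
      simp [fc, y, emb]
    · have h1 : (some j : Option ι) ≠ some i := fun h => hj (Option.some.inj h)
      have h2 : emb (some i) j = some j := by
        unfold emb
        rw [Equiv.swap_apply_of_ne_of_ne (by simp) h1]
      simp [fc, y, h2, Function.update_of_ne hj]
  have hWf : ∀ o, WG w (fc o) := by
    intro o
    cases o with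
    | none => rw [fc0]; exact hW
    | some i => rw [fc1]; exact hW' i
  have hZf : ∀ o, ZF (fc o) := by
    intro o
    cases o with
    | none => rw [fc0]; exact hZ
    | some i => rw [fc1]; exact hZ' i
  let k : Option ι → ℝ := fun o => o.elim (Matrix.det (Matrix.of u))
    (fun i => -Matrix.det (Matrix.of (Function.update u i z)))
  have hk0 : ∑ o, k o • y o = 0 := by
    rw [Fintype.sum_option]
    simp only [k, y, Option.elim_none, Option.elim_some, neg_smul, Finset.sum_neg_distrib]
    rw [cramer_rel]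
    simp
  have hkd : ∀ o, k o ≠ 0 → Matrix.det (Matrix.of (fc o)) ≠ 0 := by
    intro o ho
    cases o with
    | none => rw [fc0]; exact ho
    | some i =>
      rw [fc1]
      intro h
      apply ho
      simp [k, h]
  have hsplit : ∀ (c : Option ι → ℝ) (o : Option ι), c o = 0 →
      ∑ p, c p • y p = ∑ j, c (emb o j) • fc o j := by
    intro c o hc
    rw [sum_emb o, hc]
    simp [fc]
  by_cases hk : ∃ o, k o ≠ 0
  swap
  · push Not at hk
    have d0 : Matrix.det (Matrix.of u) = 0 := hk none
    have d1 : ∀ i, Matrix.det (Matrix.of (Function.update u i z)) = 0 := fun i => by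
      have := hk (some i)
      simpa [k] using this
    simp [ind, d0, d1]
  obtain ⟨o0, ho0⟩ := hk
  have hdet := hkd o0 ho0
  let C : (Option ι → ℝ) → Prop := fun c => ∑ p, c p • y p = w
  have hcl : ∀ (c : _) (t : ℝ), C c → C (c + t • k) := by
    intro c t hc
    simp only [C, Pi.add_apply, Pi.smul_apply, smul_eq_mul, add_smul, mul_smul,
      Finset.sum_add_distrib, ← Finset.smul_sum] at hc ⊢
    rw [hc, hk0]
    simp
  have hun : ∀ c c', C c → C c' → ∃ t : ℝ, c' = c + t • k := by
    intro c c' hc hc'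
    refine ⟨(c' o0 - c o0) / k o0, ?_⟩
    have h1 := hcl c ((c' o0 - c o0) / k o0) hc
    set d : Option ι → ℝ := c + ((c' o0 - c o0) / k o0) • k with hd
    have h2 : (c' - d) o0 = 0 := by
      simp only [hd, Pi.sub_apply, Pi.add_apply, Pi.smul_apply, smul_eq_mul]
      field_simp
      ring
    have h3 : ∑ p, (c' - d) p • y p = 0 := by
      simp only [Pi.sub_apply, sub_smul, Finset.sum_sub_distrib]
      rw [hc', h1, sub_self]
    rw [hsplit _ o0 h2, sum_smul_eq_vecMul] at h3
    have h4 := Matrix.eq_zero_of_vecMul_eq_zero hdet h3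
    funext p
    by_cases hp : p = o0
    · rw [hp]
      exact sub_eq_zero.mp h2
    · obtain ⟨j, rfl⟩ := emb_surj o0 p hp
      exact sub_eq_zero.mp (congrFun h4 j)
  have hne : ∃ c, C c := by
    refine ⟨push o0 (Matrix.vecMul w (Matrix.of (fc o0))⁻¹), ?_⟩
    simp only [C]
    rw [hsplit _ o0 (push_self _ _)]
    simp only [push_emb]
    rw [sum_smul_eq_vecMul, Matrix.vecMul_vecMul,
      Matrix.nonsing_inv_mul _ (isUnit_iff_ne_zero.mpr hdet), Matrix.vecMul_one]
  have H1 : ∀ c i, C c → (∀ j, 0 ≤ c j) → c i = 0 → ∀ j, j ≠ i → 0 < c j := by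
    intro c o hc hc0 hz p hp
    obtain ⟨j, rfl⟩ := emb_surj o p hp
    have h1 : ∑ j, c (emb o j) • fc o j = w := by rw [← hsplit c o hz]; exact hc
    exact hWf o (fun j => c (emb o j)) (fun j => hc0 _) h1 j
  have H0 : ∀ m : Option ι → ℝ, ∑ o, m o • y o = 0 → m o0 ≠ 0 → (∀ o, 0 ≤ m o) →
      ∀ o, 0 < m o := by
    intro m hm hm0 hnn o
    rcases (hnn o).lt_or_eq with h | h
    · exact h
    · exfalso
      have h1 : ∑ j, m (emb o j) • fc o j = 0 := by rw [← hsplit m o h.symm]; exact hm
      have h2 := hZf o (fun j => m (emb o j)) (fun j => hnn _) h1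
      by_cases hp : o0 = o
      · exact hm0 (hp ▸ h.symm)
      · obtain ⟨j, hj⟩ := emb_surj o o0 hp
        exact hm0 (hj ▸ congrFun h2 j)
  have H2 : (∀ i, 0 ≤ k i) → ∀ i, 0 < k i := H0 k hk0 ho0
  have H3 : (∀ i, k i ≤ 0) → ∀ i, k i < 0 := by
    intro h i
    have h1 : ∑ o, (-k) o • y o = 0 := by
      simp only [Pi.neg_apply, neg_smul, Finset.sum_neg_distrib, hk0, neg_zero]
    have := H0 (-k) h1 (by simpa using ho0) (fun o => by simpa using h o) i
    simpa using this
  have hL := line C k hcl hun hne H1 H2 H3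
  have hE : ∀ o, (∃ c, C c ∧ c o = 0 ∧ ∀ j, j ≠ o → 0 < c j) ↔
      ∃ l : ι → ℝ, (∀ i, 0 < l i) ∧ ∑ i, l i • fc o i = w := by
    intro o
    constructor
    · rintro ⟨c, hc, hz, hp⟩
      exact ⟨fun j => c (emb o j), fun j => hp _ (emb_ne o j), by
        rw [← hsplit c o hz]; exact hc⟩
    · rintro ⟨l, hl, hw⟩
      refine ⟨push o l, ?_, push_self _ _, fun p hp => ?_⟩
      · simp only [C]
        rw [hsplit _ o (push_self _ _)]
        simpa only [push_emb] using hw
      · obtain ⟨j, rfl⟩ := emb_surj o p hp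
        rw [push_emb]
        exact hl j
  simp only [hE] at hL
  rw [Fintype.sum_option] at hL
  have t0 : (if ∃ l : ι → ℝ, (∀ i, 0 < l i) ∧ ∑ i, l i • fc none i = w then
      ((SignType.sign (k none) : SignType) : ℤ) else 0) = ind w u := by
    rw [fc0]
    rfl
  have t1 : ∀ i, (if ∃ l : ι → ℝ, (∀ i, 0 < l i) ∧ ∑ j, l j • fc (some i) j = w then
      ((SignType.sign (k (some i)) : SignType) : ℤ) else 0) =
        -ind w (Function.update u i z) := by
    intro i
    rw [fc1]
    unfold ind
    split_ifs
    · simp [k, Left.sign_neg]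
    · simp
  have t2 : ind (-z) u =
      (if ∀ i, 0 < k i then 1 else 0) - (if ∀ i, k i < 0 then 1 else 0) := by
    by_cases hd : k none = 0
    · have n1 : ¬ ∀ i, 0 < k i := fun h => (h none).ne' hd
      have n2 : ¬ ∀ i, k i < 0 := fun h => (h none).ne hd
      have hd' : Matrix.det (Matrix.of u) = 0 := hd
      rw [if_neg n1, if_neg n2]
      simp [ind, hd']
    · have hrel : ∑ i, (k (some i) / k none) • u i = -z := by
        have h1 := hk0
        rw [Fintype.sum_option] at h1
        simp only [y, Option.elim_none, Option.elim_some] at h1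
        have h2 : ∑ i, (k (some i) / k none) • u i = (k none)⁻¹ • ∑ i, k (some i) • u i := by
          rw [Finset.smul_sum]
          apply Finset.sum_congr rfl
          intro i _
          rw [smul_smul, div_eq_inv_mul]
        rw [h2, eq_neg_of_add_eq_zero_right h1, smul_neg, smul_smul, inv_mul_cancel₀ hd, one_smul]
      have hiff : (∃ l : ι → ℝ, (∀ i, 0 < l i) ∧ ∑ i, l i • u i = -z) ↔
          ∀ i, 0 < k (some i) / k none := by
        constructor
        · rintro ⟨l, hl, hs⟩ i
          have h3 : ∑ i, (l - fun i => k (some i) / k none) i • u i = 0 := by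
            simp only [Pi.sub_apply, sub_smul, Finset.sum_sub_distrib]
            rw [hs, hrel, sub_self]
          rw [sum_smul_eq_vecMul] at h3
          have h4 := Matrix.eq_zero_of_vecMul_eq_zero (M := Matrix.of u) hd h3
          have h5 : l i = k (some i) / k none := sub_eq_zero.mp (congrFun h4 i)
          rw [← h5]
          exact hl i
        · intro h
          exact ⟨_, h, hrel⟩
      have hs : ind (-z) u = if ∀ i, 0 < k (some i) / k none then
          ((SignType.sign (k none) : SignType) : ℤ) else 0 := by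
        unfold ind
        simp only [hiff]
        rfl
      rw [hs]
      rcases lt_or_gt_of_ne hd with h | h
      · have n1 : ¬ ∀ i, 0 < k i := fun hh => lt_asymm h (hh none)
        have e : (∀ i, 0 < k (some i) / k none) ↔ ∀ i, k i < 0 := by
          constructor
          · intro hh o
            cases o with
            | none => exact h
            | some i =>
              rcases div_pos_iff.mp (hh i) with h' | h'
              · exact absurd h'.2 (lt_asymm h)
              · exact h'.1
          · intro hh i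
            exact div_pos_of_neg_of_neg (hh _) h
        rw [if_neg n1]
        simp only [e]
        split_ifs
        · simp [sign_neg h]
        · simp
      · have n2 : ¬ ∀ i, k i < 0 := fun hh => lt_asymm h (hh none)
        have e : (∀ i, 0 < k (some i) / k none) ↔ ∀ i, 0 < k i := by
          constructor
          · intro hh o
            cases o with
            | none => exact h
            | some i => exact (div_pos_iff_of_pos_right h).mp (hh i)
          · intro hh i
            exact div_pos (hh _) h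
        rw [if_neg n2]
        simp only [e]
        split_ifs
        · simp [sign_pos h]
        · simp
  rw [t0, ← t2] at hL
  simp only [t1, Finset.sum_neg_distrib] at hL
  linarith

end Pool.Agent.P.MP_9ca318_co
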