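import Pool.Agent.P.MP_9ca318_co.Defs

/-!
Perturbation to general position.
-/

namespace Pool.Agent.P.MP_9ca318_co

open Finset Filter Topology

namespace Pert

theorem finite_bad {V W : Type} [AddCommGroup V] [Module ℝ V] [AddCommGroup W] [Module ℝ W]
    [FiniteDimensional ℝ V] (L0 L1 : V →ₗ[ℝ] W) (h : ∀ v, L1 v = 0 → v = 0) :
    {t : ℝ | ∃ v, v ≠ 0 ∧ L0 v + t • L1 v = 0}.Finite := by
  obtain ⟨Q, hQ⟩ := LinearMap.exists_leftInverse_of_injective L1 (LinearMap.ker_eq_bot'.2 h)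
  have h1 := Module.End.finite_hasEigenvalue (R := ℝ) (M := V) (Q ∘ₗ L0)
  refine (h1.image fun t => -t).subset ?_
  rintro t ⟨v, hv, h2⟩
  refine ⟨-t, Module.End.hasEigenvalue_of_hasEigenvector (x := v) ⟨?_, hv⟩, neg_neg t⟩
  have h3 : Q (L1 v) = v := LinearMap.congr_fun hQ v
  have h4 := congrArg Q h2
  rw [map_add, map_smul, h3, map_zero] at h4
  rw [Module.End.mem_eigenspace_iff, neg_smul]
  exact eq_neg_of_add_eq_zero_left h4

theorem zf_open {ι κ : Type} [Fintype ι] [Fintype κ] (y0 y1 : κ → ι → ℝ) (h : ZF y0) :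
    ∀ᶠ t : ℝ in 𝓝 0, ZF fun ρ => y0 ρ + t • y1 ρ := by
  have h1 : ∀ᶠ t : ℝ in 𝓝 0, ∀ l ∈ stdSimplex ℝ κ, ∑ ρ, l ρ • (y0 ρ + t • y1 ρ) ≠ 0 := by
    refine (isCompact_stdSimplex ℝ κ).eventually_forall_of_forall_eventually fun l hl => ?_
    have hc : Continuous fun z : ℝ × (κ → ℝ) => ∑ ρ, z.2 ρ • (y0 ρ + z.1 • y1 ρ) := by
      fun_prop
    refine hc.continuousAt.eventually_ne fun h0 => ?_
    have h2 : l = 0 := h l hl.1 (by simpa using h0)
    have h3 := hl.2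
    simp [h2] at h3
  filter_upwards [h1] with t ht l hl h0
  by_contra hne
  have hs : 0 < ∑ ρ, l ρ := by
    obtain ⟨ρ, hρ⟩ := Function.ne_iff.1 hne
    exact sum_pos' (fun i _ => hl i) ⟨ρ, mem_univ _, lt_of_le_of_ne (hl ρ) (Ne.symm hρ)⟩
  refine ht (fun ρ => (∑ ρ, l ρ)⁻¹ * l ρ) ⟨fun ρ => mul_nonneg (inv_pos.2 hs).le (hl ρ), ?_⟩ ?_
  · rw [← mul_sum, inv_mul_cancel₀ hs.ne']
  · simp only [mul_smul]
    rw [← smul_sum, h0, smul_zero]

variable {n m : ℕ}

/-- the column of a vertex of a face -/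
def col (s : Fin n → S m) (ρ : Fin n × Fin m) : Fin (m + 1) :=
  (s ρ.1).1 (rowOf (s ρ.1).2 ρ.2)

theorem col_ne (s : Fin n → S m) (ρ : Fin n × Fin m) : col s ρ ≠ (s ρ.1).1 (s ρ.1).2 := by
  intro h
  have h1 : Equiv.swap (s ρ.1).2 (Fin.last m) ρ.2.castSucc = (s ρ.1).2 := (s ρ.1).1.injective h
  rw [Equiv.swap_apply_eq_iff, Equiv.swap_apply_left] at h1
  exact (Fin.castSucc_lt_last _).ne h1

theorem col_inj (s : Fin n → S m) (j : Fin n) {a a' : Fin m}
    (h : col s (j, a) = col s (j, a')) : a = a' :=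
  Fin.castSucc_injective _ ((Equiv.swap (s j).2 (Fin.last m)).injective ((s j).1.injective h))

/-- differences of coordinates of combinations of the vectors of a face -/
def M (s : Fin n → S m) (g : Fin n → Fin (m + 1) → Fin n → ℝ) :
    (Fin n × Fin m → ℝ) →ₗ[ℝ] (Fin n × Fin m × Fin m → ℝ) where
  toFun β x := ∑ ρ, β ρ * (g ρ.1 (rowOf (s ρ.1).2 ρ.2) x.1 *
    (sv (col s ρ) x.2.1 - sv (col s ρ) x.2.2))
  map_add' f g := by
    funext x
    simp [add_mul, sum_add_distrib]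
  map_smul' a f := by
    funext x
    simp [mul_sum, mul_assoc]

/-- the coefficients of the last column -/
def Pr (s : Fin n → S m) : (Fin n × Fin m → ℝ) →ₗ[ℝ] (Fin n × Fin m → ℝ) where
  toFun β ρ := if col s ρ = Fin.last m then β ρ else 0
  map_add' f g := by
    funext ρ
    simp only [Pi.add_apply]
    split_ifs <;> simp
  map_smul' a f := by
    funext ρ
    simp

theorem inj (s : Fin n → S m) (hs : ∀ j, (s j).1 (s j).2 ≠ Fin.last m)
    (β : Fin n × Fin m → ℝ) (h1 : M s (fun j _ => Pi.single j 1) β = 0) (h2 : Pr s β = 0) :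
    β = 0 := by
  funext ⟨j, a⟩
  by_cases h : col s (j, a) = Fin.last m
  · have h3 : (if col s (j, a) = Fin.last m then β (j, a) else 0) = 0 := congrFun h2 (j, a)
    rwa [if_pos h] at h3
  obtain ⟨c, hc⟩ := Fin.exists_castSucc_eq.2 h
  obtain ⟨c0, hc0⟩ := Fin.exists_castSucc_eq.2 (hs j)
  have h3 : ∑ ρ, β ρ * ((Pi.single ρ.1 1 : Fin n → ℝ) j *
      (sv (col s ρ) c - sv (col s ρ) c0)) = 0 := congrFun h1 (j, c, c0)
  rw [sum_eq_single (j, a)] at h3
  · have h4 : col s (j, a) ≠ c0.castSucc := hc0 ▸ col_ne s (j, a)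
    simpa [sv, h, h4, hc] using h3
  · rintro ⟨j', a'⟩ - hne
    by_cases hj : j' = j
    · subst hj
      have h4 : col s (j', a') ≠ c0.castSucc := hc0 ▸ col_ne s (j', a')
      have h5 : col s (j', a') ≠ c.castSucc := fun h5 =>
        hne (by rw [col_inj s j' (h5.trans hc)])
      simp [sv, h4, h5]
    · simp [Ne.symm hj]
  · simp

theorem main (hn : 0 < n) (g : Fin n → Fin (m + 1) → Fin n → ℝ) (hg : ∀ j r, 0 ≤ ∑ i, g j r i)
    (s : Fin n → S m) (hs : ∀ j, (s j).1 (s j).2 ≠ Fin.last m)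
    (h : ∀ β, M s g β = 0 → Pr s β = 0 → β = 0) (l : Fin n × Fin m → ℝ) (hl : ∀ ρ, 0 ≤ l ρ) :
    ∑ ρ, l ρ • face (fun j r k => (tens (g j r) k : Fin n × Fin m → ℝ)) s ρ ≠ fun _ => (1 : ℝ) := by
  intro h0
  have h1 : ∀ i c, ∑ ρ, l ρ * (g ρ.1 (rowOf (s ρ.1).2 ρ.2) i * sv (col s ρ) c) = 1 := fun i c => by
    have := congrFun h0 (i, c)
    rw [Finset.sum_apply] at this
    exact this
  have h2 := h (fun ρ => if col s ρ = Fin.last m then 0 else l ρ) (by
    funext ⟨i, c, c'⟩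
    have h3 := sub_eq_zero.2 ((h1 i c).trans (h1 i c').symm)
    rw [← sum_sub_distrib] at h3
    refine Eq.trans (sum_congr rfl fun ρ _ => ?_) h3
    by_cases hρ : col s ρ = Fin.last m
    · simp [sv, hρ]
    · simp only [if_neg hρ]
      ring) (by
    funext ρ
    change (if col s ρ = Fin.last m then (if col s ρ = Fin.last m then 0 else l ρ) else 0) = 0
    split_ifs <;> rfl)
  obtain ⟨c, -⟩ := Fin.exists_castSucc_eq.2 (hs ⟨0, hn⟩)
  have h3 : ∀ i, ∑ ρ, l ρ * g ρ.1 (rowOf (s ρ.1).2 ρ.2) i = -1 := fun i => by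
    rw [← h1 i c, ← sum_neg_distrib]
    refine sum_congr rfl fun ρ _ => ?_
    have h4 : (if col s ρ = Fin.last m then 0 else l ρ) = 0 := congrFun h2 ρ
    by_cases hρ : col s ρ = Fin.last m
    · simp [sv, hρ]
    · rw [if_neg hρ] at h4
      simp [h4]
  have h4 : 0 ≤ ∑ i, ∑ ρ, l ρ * g ρ.1 (rowOf (s ρ.1).2 ρ.2) i := by
    rw [sum_comm]
    refine sum_nonneg fun ρ _ => ?_
    rw [← mul_sum]
    exact mul_nonneg (hl ρ) (hg _ _)
  simp only [h3, sum_const, card_univ, Fintype.card_fin, smul_neg, nsmul_eq_mul, mul_one] at h4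
  have : (0 : ℝ) < n := Nat.cast_pos.2 hn
  linarith

end Pert

theorem pert : S_Pert := by
  intro n m h hn hpos hF
  have h1 : ∀ᶠ t : ℝ in 𝓝 0, FZF fun j r k =>
      (tens (h j r + t • (Pi.single j 1 : Fin n → ℝ)) k : Fin n × Fin m → ℝ) := by
    refine eventually_all.2 fun σ => ?_
    filter_upwards [Pert.zf_open _
      (fun ρ : Fin n × Fin (m + 1) => (tens (Pi.single ρ.1 1) (σ ρ.1 ρ.2) : Fin n × Fin m → ℝ))
      (hF σ)] with t ht
    refine Eq.mp (congrArg ZF ?_) ht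
    funext ρ x
    simp only [tens, Pi.add_apply, Pi.smul_apply, smul_eq_mul]
    ring
  have h2 : (⋃ s : {s : Fin n → S m // ∀ j, (s j).1 (s j).2 ≠ Fin.last m},
      {t : ℝ | ∃ v, v ≠ 0 ∧ (Pert.M s.1 h).prod 0 v +
        t • (Pert.M s.1 fun j _ => Pi.single j 1).prod (Pert.Pr s.1) v = 0}).Finite :=
    Set.finite_iUnion fun s => Pert.finite_bad _ _ fun v hv =>
      Pert.inj s.1 s.2 v (congrArg Prod.fst hv) (congrArg Prod.snd hv)
  obtain ⟨ε, hε, h3⟩ := Metric.eventually_nhds_iff.1 h1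
  obtain ⟨t, ht, h4⟩ := (Set.Ioo_infinite hε).exists_notMem_finite h2
  refine ⟨fun j r => h j r + t • (Pi.single j 1 : Fin n → ℝ),
    h3 (by simpa [abs_of_pos ht.1] using ht.2), fun s hs => ?_⟩
  refine Pert.main hn _ (fun j r => ?_) s hs fun β hM hP => ?_
  · have := hpos j r
    have := ht.1
    simp only [Pi.add_apply, Pi.smul_apply, smul_eq_mul, sum_add_distrib, ← mul_sum]
    simp only [Finset.sum_pi_single', mem_univ, if_true]
    linarith
  · by_contra hβ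
    refine h4 (Set.mem_iUnion.2 ⟨⟨s, hs⟩, β, hβ, Prod.ext ?_ ?_⟩)
    · refine Eq.trans ?_ hM
      funext x
      change ∑ ρ, _ + t * ∑ ρ, _ = ∑ ρ, _
      rw [mul_sum, ← sum_add_distrib]
      refine sum_congr rfl fun ρ _ => ?_
      simp only [Pi.add_apply, Pi.smul_apply, smul_eq_mul]
      ring
    · simp [hP]

end Pool.Agent.P.MP_9ca318_co
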