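import Pool.Agent.P.MP_9ca318_co.Defs

/-! The cyclic shift is an action with the right orientation character. -/

set_option autoImplicit false

namespace Pool.Agent.P.MP_9ca318_co

open Finset

namespace Shift

theorem sv_last {m : ℕ} (c : Fin m) : sv (Fin.last m) c = -1 := by simp [sv]

theorem sv_cast {m : ℕ} (c0 c : Fin m) : sv c0.castSucc c = if c0 = c then 1 else 0 := by
  simp [sv, (Fin.castSucc_lt_last c0).ne]

theorem sum_sv {m : ℕ} (c : Fin m) : ∑ k : Fin (m + 1), sv k c = 0 := by
  rw [Fin.sum_univ_castSucc, sv_last]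
  simp [sv_cast]

theorem sum_sv_shift {m : ℕ} (k : Fin (m + 1)) (c : Fin m) :
    ∑ c' : Fin m, sv (k + c'.castSucc) c = -sv (k + Fin.last m) c := by
  have h := Equiv.sum_comp (Equiv.addLeft k) fun l => sv l c
  rw [sum_sv, Fin.sum_univ_castSucc] at h
  exact eq_neg_of_add_eq_zero_left h

theorem shift_tens {n m : ℕ} (x : Fin n → ℝ) (k l : Fin (m + 1)) :
    shift n m k (tens x l) = tens x (k + l) := by
  funext ρ
  show ∑ c, x ρ.1 * sv l c * sv (k + c.castSucc) ρ.2 = x ρ.1 * sv (k + l) ρ.2
  induction l using Fin.lastCases with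
  | last =>
    simp only [sv_last, mul_assoc, ← Finset.mul_sum]
    rw [sum_sv_shift, neg_one_mul, neg_neg]
  | cast c0 => simp [sv_cast]

theorem single_eq {n m : ℕ} (ρ : Fin n × Fin m) :
    (Pi.single ρ 1 : Fin n × Fin m → ℝ) = tens (Pi.single ρ.1 1) ρ.2.castSucc := by
  funext σ
  obtain ⟨i, c⟩ := ρ
  obtain ⟨j, d⟩ := σ
  simp only [tens, sv_cast, Pi.single_apply, Prod.mk.injEq]
  by_cases h1 : j = i
  · by_cases h2 : d = c
    · simp [h1, h2]
    · simp [h2, Ne.symm h2]
  · simp [h1]

theorem ext_tens {n m : ℕ} {f g : (Fin n × Fin m → ℝ) →ₗ[ℝ] (Fin n × Fin m → ℝ)}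
    (h : ∀ x (c : Fin m), f (tens x c.castSucc) = g (tens x c.castSucc)) : f = g := by
  refine (Pi.basisFun ℝ (Fin n × Fin m)).ext fun ρ => ?_
  rw [Pi.basisFun_apply, single_eq]
  exact h _ _

theorem shift_zero (n m : ℕ) : shift n m 0 = LinearMap.id :=
  ext_tens fun x c => by rw [shift_tens, zero_add, LinearMap.id_apply]

theorem shift_add (n m : ℕ) (k l : Fin (m + 1)) :
    (shift n m k).comp (shift n m l) = shift n m (k + l) :=
  ext_tens fun x c => by rw [LinearMap.comp_apply, shift_tens, shift_tens, shift_tens, add_assoc]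

theorem det_pow (n m : ℕ) (k : Fin (m + 1)) (j : ℕ) :
    LinearMap.det (shift n m k) ^ j = LinearMap.det (shift n m (j • k)) := by
  induction j with
  | zero => rw [pow_zero, zero_smul, shift_zero, LinearMap.det_id]
  | succ j ih => rw [pow_succ, ih, succ_nsmul, ← shift_add, LinearMap.det_comp]

theorem sign_pow {m : ℕ} (k : Fin (m + 1)) (j : ℕ) :
    Equiv.Perm.sign (Equiv.addLeft k) ^ j = Equiv.Perm.sign (Equiv.addLeft (j • k)) := by
  induction j with
  | zero => rw [pow_zero, zero_smul, Equiv.addLeft_zero, map_one]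
  | succ j ih => rw [pow_succ, ih, succ_nsmul, Equiv.addLeft_add, map_mul]

theorem card_smul {m : ℕ} (k : Fin (m + 1)) : (m + 1) • k = 0 := by
  have := card_nsmul_eq_zero (x := k)
  rwa [Fintype.card_fin] at this

theorem shift_one (n : ℕ) : shift n 1 1 = (-1 : ℝ) • LinearMap.id := by
  refine ext_tens fun x c => ?_
  rw [shift_tens, LinearMap.smul_apply, LinearMap.id_apply]
  funext ρ
  have h1 : (1 : Fin (1 + 1)) + c.castSucc = Fin.last 1 := by
    revert c
    decide
  have h2 : c = ρ.2 := Subsingleton.elim _ _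
  simp only [tens, h1, sv_last, sv_cast, Pi.smul_apply, smul_eq_mul]
  rw [if_pos h2]
  ring

theorem det_shift (n m : ℕ) (hp : (m + 1).Prime) (k : Fin (m + 1)) :
    LinearMap.det (shift n m k) = (((Equiv.Perm.sign (Equiv.addLeft k) : ℤˣ) : ℤ) : ℝ) ^ n := by
  rcases hp.eq_two_or_odd' with h | h
  · obtain rfl : m = 1 := by omega
    have hk : k = 0 ∨ k = 1 := by
      revert k
      decide
    rcases hk with rfl | rfl
    · rw [shift_zero, LinearMap.det_id, Equiv.addLeft_zero, map_one]
      simp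
    · have hs : Equiv.Perm.sign (Equiv.addLeft (1 : Fin (1 + 1))) = -1 := by decide
      rw [shift_one, LinearMap.det_smul, LinearMap.det_id, hs]
      simp
  · have h1 := det_pow n m k (m + 1)
    rw [card_smul, shift_zero, LinearMap.det_id] at h1
    have h2 := sign_pow k (m + 1)
    rw [card_smul, Equiv.addLeft_zero, map_one] at h2
    have h3 : Equiv.Perm.sign (Equiv.addLeft k) = 1 := by
      rcases Int.units_eq_one_or (Equiv.Perm.sign (Equiv.addLeft k)) with h' | h'
      · exact h'
      · rw [h', h.neg_one_pow] at h2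
        exact absurd h2 (by decide)
    rw [h3, h.pow_inj.1 (h1.trans (one_pow _).symm)]
    simp

end Shift

theorem shiftOK : S_Shift := fun n m hp =>
  ⟨⟨Shift.shift_zero n m, Shift.shift_add n m, Shift.det_shift n m hp⟩,
    fun x k l => Shift.shift_tens x k l⟩

end Pool.Agent.P.MP_9ca318_co
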