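import Pool.Agent.P.MP_9ca318_co.Basic

set_option autoImplicit false

namespace Pool.Agent.P.MP_9ca318_co

open Finset

variable {n m : ℕ}

lemma update_mem {ι X : Type} [DecidableEq ι] {Y : Set X} {u : ι → X} (hu : ∀ j, u j ∈ Y) {z : X}
    (hz : z ∈ Y) (i j : ι) : Function.update u i z j ∈ Y := by
  by_cases h : j = i
  · subst h
    simpa using hz
  · rw [Function.update_of_ne h]
    exact hu j

theorem wchange (hC : S_LemC) : S_WChange := by
  intro n m Φ ε w w' hcyc hs hg
  have key : ∀ s : Fin n → S m, (∏ j, ε j (s j)) * ind w (face Φ s) =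
      ∑ j, (∏ i, ε i (s i)) * ∑ a, ind w (Function.update (face Φ s) (j, a) (-w')) +
        (∏ j, ε j (s j)) * ind w' (face Φ s) := by
    intro s
    by_cases h0 : ∀ j, ε j (s j) ≠ 0
    · obtain ⟨hz, hw⟩ := hs s h0
      have hm : ∀ ρ, face Φ s ρ ∈ insert (-w') (verts Φ) :=
        fun ρ => Set.mem_insert_of_mem _ (face_mem Φ s ρ)
      have := hC _ w (-w') (face Φ s) (hg.wg hm)
        (fun i => hg.wg (update_mem hm (Set.mem_insert _ _) i)) hz
        (fun i => zf_update_neg hz hw i)
      rw [this, neg_neg, Fintype.sum_prod_type, ← Finset.mul_sum, mul_add]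
    · push Not at h0
      obtain ⟨j, hj⟩ := h0
      rw [Finset.prod_eq_zero (Finset.mem_univ j) hj]
      simp
  unfold Dg
  rw [Finset.sum_congr rfl fun s _ => key s, Finset.sum_add_distrib, Finset.sum_comm,
    Finset.sum_eq_zero fun j _ => cyc_sum w Φ ε j (hcyc j) (fun _ => -w') (fun _ _ => rfl),
    zero_add]

lemma rowOf_injective (b : Fin (m + 1)) : Function.Injective (rowOf b) :=
  (Equiv.swap b (Fin.last m)).injective.comp (Fin.castSucc_injective m)

lemma rowOf_ne (b : Fin (m + 1)) (a : Fin m) : rowOf b a ≠ b := by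
  intro h
  unfold rowOf at h
  have h2 : Equiv.swap b (Fin.last m) a.castSucc = Equiv.swap b (Fin.last m) (Fin.last m) := by
    rw [h, Equiv.swap_apply_right]
  exact (Fin.castSucc_lt_last a).ne ((Equiv.swap b (Fin.last m)).injective h2)

lemma rowOf_last (a : Fin m) : rowOf (Fin.last m) a = a.castSucc := by
  simp [rowOf]

/-- The rows used by a face. -/
def rows (s : Fin n → S m) : Fin n × Fin m → Fin n × Fin (m + 1) :=
  fun ρ => (ρ.1, rowOf (s ρ.1).2 ρ.2)

lemma rows_injective (s : Fin n → S m) : Function.Injective (rows s) := by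
  rintro ⟨i, a⟩ ⟨j, b⟩ h
  simp only [rows, Prod.mk.injEq] at h
  obtain ⟨rfl, h⟩ := h
  rw [rowOf_injective _ h]

lemma rows_ne (s : Fin n → S m) (ρ : Fin n × Fin m) (j : Fin n) : rows s ρ ≠ (j, (s j).2) := by
  intro h
  simp only [rows, Prod.mk.injEq] at h
  obtain ⟨rfl, h⟩ := h
  exact rowOf_ne _ _ h

lemma face_eq_comp {X : Type} (Φ : Fin n → Fin (m + 1) → Fin (m + 1) → X) (s : Fin n → S m) :
    face Φ s = (fun ρ : Fin n × Fin (m + 1) => Φ ρ.1 ρ.2 ((s ρ.1).1 ρ.2)) ∘ rows s := rfl

lemma FZF.face {ι : Type} {Φ : Fin n → Fin (m + 1) → Fin (m + 1) → (ι → ℝ)} (h : FZF Φ)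
    (s : Fin n → S m) : ZF (face Φ s) := by
  rw [face_eq_comp]
  exact (h fun j => (s j).1).comp (rows_injective s)

lemma FZF.face_update {ι : Type} {Φ : Fin n → Fin (m + 1) → Fin (m + 1) → (ι → ℝ)} (h : FZF Φ)
    (s : Fin n → S m) (j : Fin n) (ρ : Fin n × Fin m) :
    ZF (Function.update (Pool.Agent.P.MP_9ca318_co.face Φ s) ρ (Φ j (s j).2 ((s j).1 (s j).2))) := by
  have h1 : Function.update (Pool.Agent.P.MP_9ca318_co.face Φ s) ρ (Φ j (s j).2 ((s j).1 (s j).2)) =
      (fun ρ : Fin n × Fin (m + 1) => Φ ρ.1 ρ.2 ((s ρ.1).1 ρ.2)) ∘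
        Function.update (rows s) ρ (j, (s j).2) := by
    rw [Function.comp_update, face_eq_comp]
  rw [h1]
  refine (h fun j => (s j).1).comp ?_
  intro x y hxy
  by_cases hx : x = ρ <;> by_cases hy : y = ρ
  · rw [hx, hy]
  · rw [hx, Function.update_self, Function.update_of_ne hy] at hxy
    exact absurd hxy.symm (rows_ne s y j)
  · rw [hy, Function.update_self, Function.update_of_ne hx] at hxy
    exact absurd hxy (rows_ne s x j)
  · rw [Function.update_of_ne hx, Function.update_of_ne hy] at hxy
    exact rows_injective s hxy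

lemma FZF.ind_neg {Φ : Fin n → Fin (m + 1) → Fin (m + 1) → (Fin n × Fin m → ℝ)} (h : FZF Φ)
    (s : Fin n → S m) (j : Fin n) :
    ind (-(Φ j (s j).2 ((s j).1 (s j).2))) (Pool.Agent.P.MP_9ca318_co.face Φ s) = 0 := by
  refine ind_eq_zero fun l hl h0 => ?_
  let e : Option (Fin n × Fin m) → Fin n × Fin (m + 1) := fun o => o.elim (j, (s j).2) (rows s)
  have he : Function.Injective e := by
    rintro (_ | x) (_ | y) hxy
    · rfl
    · exact absurd hxy.symm (rows_ne s y j)
    · exact absurd hxy (rows_ne s x j)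
    · rw [rows_injective s hxy]
  have h1 := (h fun j => (s j).1).comp he (fun o => o.elim 1 l)
    (by rintro (_ | x); exacts [zero_le_one, hl x]) (by
      rw [Fintype.sum_option]
      simp only [Option.elim, Function.comp_apply, e, one_smul]
      rw [face_eq_comp] at h0
      simp only [Function.comp_apply] at h0
      rw [h0, add_neg_cancel])
  have := congrFun h1 none
  simp at this

lemma cf_castSucc {X : Type} (ψ : Fin (m + 1) → Fin (m + 1) → X) (σ : Equiv.Perm (Fin (m + 1)))
    (b : Fin m) : cf ψ (σ, b.castSucc) =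
      Function.update (cf ψ (σ, Fin.last m)) b (ψ (Fin.last m) (σ (Fin.last m))) := by
  funext a
  by_cases h : a = b
  · subst h
    simp [cf, rowOf]
  · rw [Function.update_of_ne h]
    have : rowOf b.castSucc a = a.castSucc := by
      unfold rowOf
      rw [Equiv.swap_apply_of_ne_of_ne (by simpa using h) (Fin.castSucc_lt_last a).ne]
    simp only [cf, this, rowOf_last]

/-- Coefficients of the filling chain. -/
def epsT {m : ℕ} (s : S m) : ℤ :=
  if s.2 = Fin.last m ∧ s.1 (Fin.last m) = Fin.last m then ((Equiv.Perm.sign s.1 : ℤˣ) : ℤ) else 0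

lemma tstep_one (hC : S_LemC) (Φ : Fin n → Fin (m + 1) → Fin (m + 1) → (Fin n × Fin m → ℝ))
    (w : Fin n × Fin m → ℝ) (hΦ : FZF Φ) (hg : Gen (verts Φ) w) (ε : Fin n → S m → ℤ) (j : Fin n)
    (hcyc : ∀ i, i ≠ j → Cyc (ε i)) :
    Dg w Φ (Function.update ε j epsR) = Dg w Φ (Function.update ε j epsQ) := by
  set ζ := Φ j (Fin.last m) (Fin.last m) with hζ
  have h1 : Dg w Φ (Function.update ε j (fun x => epsR x - epsQ x)) =
      ∑ s : Fin n → S m, (∏ i, Function.update ε j epsT i (s i)) *
        ∑ i ∈ univ.erase j, ∑ a, ind w (Function.update (face Φ s) (i, a) ζ) := by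
    unfold Dg
    refine fub2 _ _ _ _ j (fun i hi => by simp [Function.update_of_ne hi]) fun s _ => ?_
    simp only [Function.update_self]
    rw [Fintype.sum_prod_type, Fintype.sum_prod_type]
    refine Finset.sum_congr rfl fun σ _ => ?_
    rw [Fin.sum_univ_castSucc, Fin.sum_univ_castSucc]
    by_cases hσ : σ (Fin.last m) = Fin.last m
    · set s' := Function.update s j (σ, Fin.last m) with hs'
      have hsj : s' j = (σ, Fin.last m) := by simp [hs']
      have hz : Φ j (s' j).2 ((s' j).1 (s' j).2) = ζ := by rw [hsj, hζ]; simp only [hσ]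
      have hm : ∀ ρ, face Φ s' ρ ∈ verts Φ := face_mem Φ s'
      have hζm : ζ ∈ verts Φ := ⟨_, _, _, rfl⟩
      have hL := hC _ w ζ (face Φ s') (hg.wg hm) (fun i => hg.wg (update_mem hm hζm i))
        (hΦ.face s') (fun i => hz ▸ hΦ.face_update s' j i)
      have h0 : ind (-ζ) (face Φ s') = 0 := hz ▸ hΦ.ind_neg s' j
      rw [h0, add_zero, Fintype.sum_prod_type, ← Finset.add_sum_erase _ _ (Finset.mem_univ j)] at hL
      have hb : ∀ b : Fin m, face Φ (Function.update s j (σ, b.castSucc)) =
          Function.update (face Φ s') (j, b) ζ := by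
        intro b
        rw [hs', face_update, face_update, update_setc, cf_castSucc, hσ]
      have e1 : ∀ b : Fin m, epsR (σ, b.castSucc) - epsQ (σ, b.castSucc) =
          -((Equiv.Perm.sign σ : ℤˣ) : ℤ) := by
        intro b
        simp [epsR, epsQ, (Fin.castSucc_lt_last b).ne, hσ]
      have e2 : epsR (σ, Fin.last m) - epsQ (σ, Fin.last m) = ((Equiv.Perm.sign σ : ℤˣ) : ℤ) := by
        simp [epsR, epsQ, hσ]
      have e3 : ∀ b : Fin m, epsT (σ, b.castSucc) = 0 := by
        intro b
        simp [epsT, (Fin.castSucc_lt_last b).ne]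
      have e4 : epsT (σ, Fin.last m) = ((Equiv.Perm.sign σ : ℤˣ) : ℤ) := by
        simp [epsT, hσ]
      simp only [e1, e2, e3, e4, hb, zero_mul, Finset.sum_const_zero, zero_add, ← Finset.mul_sum]
      rw [hL]
      ring
    · have e1 : ∀ b : Fin m, epsR (σ, b.castSucc) - epsQ (σ, b.castSucc) = 0 := by
        intro b
        simp [epsR, epsQ, (Fin.castSucc_lt_last b).ne, hσ]
      have e2 : epsR (σ, Fin.last m) - epsQ (σ, Fin.last m) = 0 := by
        simp [epsR, epsQ, hσ]
      have e3 : ∀ b, epsT (σ, b) = 0 := by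
        intro b
        simp [epsT, hσ]
      simp only [e1, e2, e3, zero_mul]
  have h2 : ∑ s : Fin n → S m, (∏ i, Function.update ε j epsT i (s i)) *
      ∑ i ∈ univ.erase j, ∑ a, ind w (Function.update (face Φ s) (i, a) ζ) = 0 := by
    simp only [Finset.mul_sum (univ.erase j)]
    rw [Finset.sum_comm]
    refine Finset.sum_eq_zero fun i hi => ?_
    have hi' := Finset.ne_of_mem_erase hi
    exact cyc_sum w Φ (Function.update ε j epsT) i
      (by rw [Function.update_of_ne hi']; exact hcyc i hi') (fun _ => ζ) (fun _ _ => rfl)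
  rw [h2] at h1
  rw [← sub_eq_zero, ← h1]
  unfold Dg
  rw [← Finset.sum_sub_distrib]
  refine Finset.sum_congr rfl fun s _ => ?_
  have hp : ∀ e : S m → ℤ, ∏ i, Function.update ε j e i (s i) =
      (∏ i ∈ univ.erase j, ε i (s i)) * e (s j) := by
    intro e
    rw [← Finset.prod_erase_mul _ _ (Finset.mem_univ j), Function.update_self]
    congr 1
    exact Finset.prod_congr rfl fun i hi => by
      rw [Function.update_of_ne (Finset.ne_of_mem_erase hi)]
  rw [hp, hp, hp]
  ring

theorem tstep (hC : S_LemC) (hcyc : S_Cyc) : S_TStep := by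
  intro n m Φ w hΦ hg
  have key : ∀ A : Finset (Fin n), Dg w Φ (fun _ => epsR) =
      Dg w Φ (fun j => if j ∈ A then epsQ else epsR) := by
    intro A
    induction A using Finset.induction_on with
    | empty => simp
    | insert j A hj ih =>
      have h1 : (fun i => if i ∈ A then epsQ else epsR : Fin n → S m → ℤ) =
          Function.update (fun i => if i ∈ A then epsQ else epsR) j epsR := by
        rw [eq_comm, Function.update_eq_self_iff]
        simp [hj]
      have h2 : (fun i => if i ∈ insert j A then epsQ else epsR : Fin n → S m → ℤ) =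
          Function.update (fun i => if i ∈ A then epsQ else epsR) j epsQ := by
        funext i
        by_cases hi : i = j
        · subst hi
          simp
        · rw [Function.update_of_ne hi]
          simp [hi]
      rw [ih, h2, ← tstep_one hC Φ w hΦ hg _ j, ← h1]
      intro i _
      by_cases hi : i ∈ A
      · simpa [hi] using (hcyc m).2
      · simpa [hi] using (hcyc m).1
  simpa using key Finset.univ

end Pool.Agent.P.MP_9ca318_co
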